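import Mathlib

/-!
# Limits of the pairing kernel (MP_d8b8b7_gt, helper77)

`pot μ x = ∫ |x-y|⁻² dμ(y)` and `kap δ x y = δ² / (δ² + |x-y|²)²`.

* `tendsto_kap_of_pot` : if `pot μ x < ∞` then `∫ kap δ x y dμ(y) → 0`.
* `pair_tendsto_left` : `∫_{x ∉ N} ∫ kap δ x y dμ(y) dτ(x) → 0` where `N = {pot μ = ∞}`
  and `μ` has bounded density.
* `density_null` : `μ` restricted to the complement of `N` does not charge the set where `τ` has
  positive upper two-dimensional density.
* `pair_tendsto_right` : `∫_{x ∉ N} ∫ kap δ x y dτ(y) dμ(x) → 0` if `τ` has bounded density.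
-/

open MeasureTheory Set Filter Topology Metric
open scoped ENNReal NNReal

namespace TCPair

variable {E : Type*} [MetricSpace E] [SecondCountableTopology E] [MeasurableSpace E] [BorelSpace E]

/-- the kernel `δ² / (δ² + |x-y|²)²` -/
noncomputable def kap (δ : ℝ) (x y : E) : ℝ≥0∞ :=
  ENNReal.ofReal (δ ^ 2 / (δ ^ 2 + dist x y ^ 2) ^ 2)

/-- the potential `∫ |x-y|⁻² dμ(y)` -/
noncomputable def pot (μ : Measure E) (x : E) : ℝ≥0∞ :=
  ∫⁻ y, (ENNReal.ofReal (dist x y ^ 2))⁻¹ ∂μ

omit [SecondCountableTopology E] in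
lemma measurable_inv (x : E) :
    Measurable fun y : E => (ENNReal.ofReal (dist x y ^ 2))⁻¹ := by
  have : Measurable fun y : E => dist x y := (continuous_const.dist continuous_id).measurable
  exact (this.pow_const 2).ennreal_ofReal.inv

omit [SecondCountableTopology E] in
lemma measurable_kap (δ : ℝ) (x : E) : Measurable fun y : E => kap δ x y := by
  have : Measurable fun y : E => dist x y := (continuous_const.dist continuous_id).measurable
  unfold kap
  exact (measurable_const.div ((measurable_const.add (this.pow_const 2)).pow_const 2)).ennreal_ofReal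

lemma measurable_kap2 (δ : ℝ) : Measurable fun p : E × E => kap δ p.1 p.2 := by
  have : Measurable fun p : E × E => dist p.1 p.2 := measurable_dist
  unfold kap
  exact (measurable_const.div ((measurable_const.add (this.pow_const 2)).pow_const 2)).ennreal_ofReal

omit [SecondCountableTopology E] [MeasurableSpace E] [BorelSpace E] in
lemma kap_comm (δ : ℝ) (x y : E) : kap δ x y = kap δ y x := by
  unfold kap; rw [dist_comm]

omit [SecondCountableTopology E] [MeasurableSpace E] [BorelSpace E] in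
lemma kap_le_inv {δ : ℝ} (hδ : 0 < δ) (x y : E) :
    kap δ x y ≤ (ENNReal.ofReal (dist x y ^ 2))⁻¹ := by
  unfold kap
  rcases eq_or_ne x y with h | h
  · subst h
    simp
  · have hd : 0 < dist x y := dist_pos.2 h
    rw [← ENNReal.ofReal_inv_of_pos (by positivity)]
    apply ENNReal.ofReal_le_ofReal
    have h1 : 0 < δ ^ 2 + dist x y ^ 2 := by positivity
    rw [div_le_iff₀ (by positivity), inv_mul_eq_div, le_div_iff₀ (by positivity)]
    nlinarith [sq_nonneg (δ ^ 2), sq_nonneg (dist x y ^ 2), mul_pos (pow_pos hδ 2) (pow_pos hd 2)]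

omit [SecondCountableTopology E] in
/-- Dominated convergence: finite potential implies that the density kernel tends to zero. -/
theorem tendsto_kap_of_pot {μ : Measure E} {x : E} (h : pot μ x ≠ ∞) :
    Tendsto (fun δ : ℝ => ∫⁻ y, kap δ x y ∂μ) (𝓝[>] 0) (𝓝 0) := by
  have h0 : ∫⁻ _ : E, (0 : ℝ≥0∞) ∂μ = 0 := by simp
  rw [← h0]
  have hae : ∀ᵐ y ∂μ, (ENNReal.ofReal (dist x y ^ 2))⁻¹ < ∞ :=
    ae_lt_top (measurable_inv x) h
  refine tendsto_lintegral_filter_of_dominated_convergence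
    (fun y => (ENNReal.ofReal (dist x y ^ 2))⁻¹) ?_ ?_ h ?_
  · exact Eventually.of_forall fun δ => measurable_kap δ x
  · filter_upwards [self_mem_nhdsWithin] with δ hδ
    exact Eventually.of_forall fun y => kap_le_inv hδ x y
  · filter_upwards [hae] with y hy
    have hxy : 0 < dist x y := by
      rcases eq_or_ne x y with h | h
      · subst h; simp at hy
      · exact dist_pos.2 h
    have h1 : Tendsto (fun δ : ℝ => δ ^ 2 / (δ ^ 2 + dist x y ^ 2) ^ 2) (𝓝[>] 0) (𝓝 0) := by
      have : ContinuousAt (fun δ : ℝ => δ ^ 2 / (δ ^ 2 + dist x y ^ 2) ^ 2) 0 := by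
        apply ContinuousAt.div
        · fun_prop
        · fun_prop
        · positivity
      have h2 := this.tendsto
      simp only [ne_eq, OfNat.ofNat_ne_zero, not_false_eq_true, zero_pow, zero_div] at h2
      exact h2.mono_left nhdsWithin_le_nhds
    have := ENNReal.tendsto_ofReal h1
    simpa [kap] using this

omit [SecondCountableTopology E] in
/-- mass of small balls at a point of finite potential is `o(r²)` -/
theorem ball_small_of_pot {μ : Measure E} {x : E} (h : pot μ x ≠ ∞) {s : ℝ} (hs : 0 < s) :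
    ∀ᶠ r : ℝ in 𝓝[>] 0, μ (closedBall x r) ≤ ENNReal.ofReal (s * r ^ 2) := by
  have h1 := tendsto_kap_of_pot h
  have hs4 : (0 : ℝ≥0∞) < ENNReal.ofReal (s / 4) := by
    rw [ENNReal.ofReal_pos]; positivity
  have h2 := h1.eventually (gt_mem_nhds hs4)
  filter_upwards [h2, self_mem_nhdsWithin] with r hr hr0
  have hr0' : (0 : ℝ) < r := hr0
  have h3 : ENNReal.ofReal (1 / (4 * r ^ 2)) * μ (closedBall x r) ≤ ∫⁻ y, kap r x y ∂μ := by
    calc ENNReal.ofReal (1 / (4 * r ^ 2)) * μ (closedBall x r)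
        = ∫⁻ _ in closedBall x r, ENNReal.ofReal (1 / (4 * r ^ 2)) ∂μ := by
          rw [setLIntegral_const]
      _ ≤ ∫⁻ y in closedBall x r, kap r x y ∂μ := by
          refine setLIntegral_mono' measurableSet_closedBall fun y hy => ?_
          unfold kap
          apply ENNReal.ofReal_le_ofReal
          rw [mem_closedBall, dist_comm] at hy
          have hd : 0 ≤ dist x y := dist_nonneg
          have hd2 : dist x y ^ 2 ≤ r ^ 2 := by gcongr
          rw [div_le_div_iff₀ (by positivity) (by positivity)]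
          have : (r ^ 2 + dist x y ^ 2) ^ 2 ≤ (2 * r ^ 2) ^ 2 := by
            gcongr; linarith
          nlinarith
      _ ≤ ∫⁻ y, kap r x y ∂μ := setLIntegral_le_lintegral _ _
  have h4 : ENNReal.ofReal (1 / (4 * r ^ 2)) * μ (closedBall x r) ≤ ENNReal.ofReal (s / 4) :=
    h3.trans hr.le
  have hne : ENNReal.ofReal (1 / (4 * r ^ 2)) ≠ 0 := by
    rw [Ne, ENNReal.ofReal_eq_zero, not_le]; positivity
  have h5 : μ (closedBall x r) ≤ (ENNReal.ofReal (1 / (4 * r ^ 2)))⁻¹ * ENNReal.ofReal (s / 4) := by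
    rw [← ENNReal.mul_le_iff_le_inv hne ENNReal.ofReal_ne_top]
    exact h4
  refine h5.trans (le_of_eq ?_)
  rw [← ENNReal.ofReal_inv_of_pos (by positivity), ← ENNReal.ofReal_mul (by positivity)]
  congr 1
  field_simp


/-- `μ` restricted to the points of finite potential does not charge the set where the upper
two-dimensional density of `τ` is larger than `t` (Vitali covering). -/
theorem density_null_aux {μ τ : Measure E} [IsFiniteMeasure τ] {t : ℝ} (ht : 0 < t) :
    μ {x | pot μ x ≠ ∞ ∧ ∃ᶠ r : ℝ in 𝓝[>] 0, ENNReal.ofReal (t * r ^ 2) < τ (closedBall x r)}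
      = 0 := by
  set A : Set E :=
    {x | pot μ x ≠ ∞ ∧ ∃ᶠ r : ℝ in 𝓝[>] 0, ENNReal.ofReal (t * r ^ 2) < τ (closedBall x r)}
    with hA
  -- choice of radii
  have key : ∀ s : ℝ, 0 < s → μ A ≤ ENNReal.ofReal (s / t) * τ univ := by
    intro s hs
    have hr : ∀ x ∈ A, ∃ r : ℝ, 0 < r ∧ r ≤ 1 ∧
        ENNReal.ofReal (t * r ^ 2) < τ (closedBall x r) ∧
        μ (closedBall x (5 * r)) ≤ ENNReal.ofReal (s * r ^ 2) := by
      rintro x ⟨hx1, hx2⟩
      have h5 : Tendsto (fun r : ℝ => 5 * r) (𝓝[>] 0) (𝓝[>] 0) := by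
        refine tendsto_nhdsWithin_of_tendsto_nhds_of_eventually_within _ ?_ ?_
        · have : Tendsto (fun r : ℝ => 5 * r) (𝓝 0) (𝓝 (5 * 0)) :=
            (continuous_const.mul continuous_id).tendsto 0
          rw [mul_zero] at this
          exact this.mono_left nhdsWithin_le_nhds
        · filter_upwards [self_mem_nhdsWithin] with r hr
          have : (0 : ℝ) < r := hr
          show (0 : ℝ) < 5 * r
          positivity
      have h1 := h5.eventually (ball_small_of_pot hx1 (s := s / 25) (by positivity))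
      have h2 : ∀ᶠ r : ℝ in 𝓝[>] 0, r ≤ 1 := by
        have : ∀ᶠ r : ℝ in 𝓝 0, r < 1 := gt_mem_nhds one_pos
        exact (this.filter_mono nhdsWithin_le_nhds).mono fun r hr => hr.le
      have h3 : ∀ᶠ r : ℝ in 𝓝[>] 0, 0 < r := self_mem_nhdsWithin
      obtain ⟨r, hr1, hr2, hr3, hr4⟩ := (hx2.and_eventually (h1.and (h2.and h3))).exists
      refine ⟨r, hr4, hr3, hr1, hr2.trans (le_of_eq ?_)⟩
      congr 1
      ring
    choose! r hr0 hr1 hrτ hrμ using hr
    obtain ⟨u, huA, hdisj, hcov⟩ :=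
      Vitali.exists_disjoint_subfamily_covering_enlargement_closedBall A (fun x => x) r 1
        (fun a ha => hr1 a ha) 5 (by norm_num)
    have hcount : u.Countable := by
      apply hdisj.countable_of_nonempty_interior
      intro x hx
      refine ⟨x, ?_⟩
      have : ball x (r x) ⊆ interior (closedBall x (r x)) := ball_subset_interior_closedBall
      exact this (mem_ball_self (hr0 x (huA hx)))
    have hsub : A ⊆ ⋃ x ∈ u, closedBall x (5 * r x) := by
      intro x hx
      obtain ⟨b, hb, hb2⟩ := hcov x hx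
      simp only [mem_iUnion]
      exact ⟨b, hb, hb2 (mem_closedBall_self (hr0 x hx).le)⟩
    calc μ A ≤ μ (⋃ x ∈ u, closedBall x (5 * r x)) := measure_mono hsub
      _ ≤ ∑' x : u, μ (closedBall (x : E) (5 * r x)) := measure_biUnion_le μ hcount _
      _ ≤ ∑' x : u, ENNReal.ofReal (s / t) * τ (closedBall (x : E) (r x)) := by
          refine ENNReal.tsum_le_tsum fun x => ?_
          refine (hrμ x (huA x.2)).trans ?_
          have h1 := (hrτ x (huA x.2)).le
          calc ENNReal.ofReal (s * r x ^ 2)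
              = ENNReal.ofReal (s / t) * ENNReal.ofReal (t * r x ^ 2) := by
                rw [← ENNReal.ofReal_mul (by positivity)]
                congr 1
                field_simp
            _ ≤ _ := by gcongr
      _ = ENNReal.ofReal (s / t) * ∑' x : u, τ (closedBall (x : E) (r x)) := ENNReal.tsum_mul_left
      _ = ENNReal.ofReal (s / t) * τ (⋃ x ∈ u, closedBall x (r x)) := by
          rw [measure_biUnion hcount hdisj (fun _ _ => measurableSet_closedBall)]
      _ ≤ ENNReal.ofReal (s / t) * τ univ := by gcongr; exact subset_univ _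
  -- let s tend to zero
  have hlim : Tendsto (fun s : ℝ => ENNReal.ofReal (s / t) * τ univ) (𝓝[>] 0) (𝓝 0) := by
    have h1 : Tendsto (fun s : ℝ => s / t) (𝓝[>] 0) (𝓝 0) := by
      have : Tendsto (fun s : ℝ => s / t) (𝓝 0) (𝓝 (0 / t)) :=
        (continuous_id.div_const t).tendsto 0
      rw [zero_div] at this
      exact this.mono_left nhdsWithin_le_nhds
    have h2 := ENNReal.tendsto_ofReal h1
    rw [ENNReal.ofReal_zero] at h2
    have h3 := ENNReal.Tendsto.mul_const h2 (Or.inr (measure_ne_top τ univ))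
    rwa [zero_mul] at h3
  refine le_antisymm (ge_of_tendsto hlim ?_) (by simp)
  filter_upwards [self_mem_nhdsWithin] with s hs using key s hs

/-- almost every point (for `μ`) of finite potential of `μ` is a point where `τ` has zero
two-dimensional density. -/
theorem density_null {μ τ : Measure E} [IsFiniteMeasure τ] :
    ∀ᵐ x ∂μ, pot μ x ≠ ∞ → ∀ t : ℝ, 0 < t →
      ∀ᶠ r : ℝ in 𝓝[>] 0, τ (closedBall x r) ≤ ENNReal.ofReal (t * r ^ 2) := by
  have h : ∀ n : ℕ, ∀ᵐ x ∂μ, ¬ (pot μ x ≠ ∞ ∧ ∃ᶠ r : ℝ in 𝓝[>] 0,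
      ENNReal.ofReal ((1 / ((n : ℝ) + 1)) * r ^ 2) < τ (closedBall x r)) := fun n => by
    have := density_null_aux (μ := μ) (τ := τ) (t := 1 / ((n : ℝ) + 1)) (by positivity)
    rw [ae_iff]
    simpa using this
  filter_upwards [ae_all_iff.2 h] with x hx hpot t ht
  obtain ⟨n, hn⟩ := exists_nat_one_div_lt ht
  have h1 := hx n
  rw [not_and] at h1
  have h2 := h1 hpot
  rw [not_frequently] at h2
  filter_upwards [h2] with r hr
  rw [not_lt] at hr
  refine hr.trans (ENNReal.ofReal_le_ofReal ?_)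
  have := sq_nonneg r
  nlinarith

omit [SecondCountableTopology E] [MeasurableSpace E] [BorelSpace E] in
/-- dyadic bound of the kernel by indicators of balls -/
lemma kap_le_tsum {δ : ℝ} (hδ : 0 < δ) (x y : E) :
    kap δ x y ≤ ∑' j : ℕ, (closedBall x (2 ^ j * δ)).indicator
      (fun _ => ENNReal.ofReal (16 * (1 / 16) ^ j / δ ^ 2)) y := by
  obtain ⟨j, hj1, hj2⟩ : ∃ j : ℕ, dist x y ≤ 2 ^ j * δ ∧ (j ≠ 0 → 2 ^ (j - 1) * δ < dist x y) := by
    have hex : ∃ j : ℕ, dist x y ≤ 2 ^ j * δ := by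
      obtain ⟨n, hn⟩ := pow_unbounded_of_one_lt (dist x y / δ) (by norm_num : (1 : ℝ) < 2)
      exact ⟨n, by rw [div_lt_iff₀ hδ] at hn; exact hn.le⟩
    classical
    refine ⟨Nat.find hex, Nat.find_spec hex, fun h0 => ?_⟩
    have := Nat.find_min hex (m := Nat.find hex - 1) (by omega)
    exact not_le.1 this
  refine le_trans ?_ (ENNReal.le_tsum j)
  rw [indicator_of_mem (by rw [mem_closedBall, dist_comm]; exact hj1)]
  unfold kap
  apply ENNReal.ofReal_le_ofReal
  have hd : 0 ≤ dist x y := dist_nonneg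
  rcases Nat.eq_zero_or_pos j with h0 | h0
  · subst h0
    rw [pow_zero, mul_one]
    rw [div_le_div_iff₀ (by positivity) (by positivity)]
    have h1 : 0 ≤ dist x y ^ 2 := by positivity
    have h2 : 0 < δ ^ 2 := by positivity
    nlinarith [mul_nonneg h1 h2.le, mul_nonneg h1 h1, mul_pos h2 h2]
  · have h1 := hj2 (by omega)
    obtain ⟨i, rfl⟩ : ∃ i, j = i + 1 := ⟨j - 1, by omega⟩
    rw [Nat.add_sub_cancel] at h1
    have h2 : 0 < (2 : ℝ) ^ i * δ := by positivity
    have h3 : ((2 : ℝ) ^ i * δ) ^ 4 ≤ (δ ^ 2 + dist x y ^ 2) ^ 2 := by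
      have h4 : ((2 : ℝ) ^ i * δ) ^ 2 ≤ δ ^ 2 + dist x y ^ 2 := by
        have : ((2 : ℝ) ^ i * δ) ^ 2 ≤ dist x y ^ 2 := by gcongr
        nlinarith [sq_nonneg δ]
      calc ((2 : ℝ) ^ i * δ) ^ 4 = (((2 : ℝ) ^ i * δ) ^ 2) ^ 2 := by ring
        _ ≤ _ := by gcongr
    calc δ ^ 2 / (δ ^ 2 + dist x y ^ 2) ^ 2 ≤ δ ^ 2 / ((2 : ℝ) ^ i * δ) ^ 4 := by gcongr
      _ = 16 * (1 / 16) ^ (i + 1) / δ ^ 2 := by
        have e1 : ((2 : ℝ) ^ i * δ) ^ 4 = 16 ^ i * δ ^ 4 := by
          rw [mul_pow, ← pow_mul, mul_comm i 4, pow_mul]; norm_num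
        rw [e1, one_div, inv_pow]
        field_simp
        rw [pow_succ]

omit [SecondCountableTopology E] in
/-- bounded density implies a bound for the density kernel -/
theorem lintegral_kap_le {τ : Measure E} {x : E} {c : ℝ} (hc : 0 ≤ c)
    (h : ∀ r : ℝ, 0 < r → τ (closedBall x r) ≤ ENNReal.ofReal (c * r ^ 2))
    {δ : ℝ} (hδ : 0 < δ) :
    ∫⁻ y, kap δ x y ∂τ ≤ ENNReal.ofReal (22 * c) := by
  calc ∫⁻ y, kap δ x y ∂τ
      ≤ ∫⁻ y, ∑' j : ℕ, (closedBall x (2 ^ j * δ)).indicator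
          (fun _ => ENNReal.ofReal (16 * (1 / 16) ^ j / δ ^ 2)) y ∂τ :=
        lintegral_mono fun y => kap_le_tsum hδ x y
    _ = ∑' j : ℕ, ∫⁻ y, (closedBall x (2 ^ j * δ)).indicator
          (fun _ => ENNReal.ofReal (16 * (1 / 16) ^ j / δ ^ 2)) y ∂τ := by
        rw [lintegral_tsum]
        intro j
        exact (measurable_const.indicator measurableSet_closedBall).aemeasurable
    _ = ∑' j : ℕ, ENNReal.ofReal (16 * (1 / 16) ^ j / δ ^ 2) * τ (closedBall x (2 ^ j * δ)) := by
        congr 1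
        ext j
        rw [lintegral_indicator measurableSet_closedBall, setLIntegral_const]
    _ ≤ ∑' j : ℕ, ENNReal.ofReal (16 * c * (1 / 4) ^ j) := by
        refine ENNReal.tsum_le_tsum fun j => ?_
        calc ENNReal.ofReal (16 * (1 / 16) ^ j / δ ^ 2) * τ (closedBall x (2 ^ j * δ))
            ≤ ENNReal.ofReal (16 * (1 / 16) ^ j / δ ^ 2) *
                ENNReal.ofReal (c * (2 ^ j * δ) ^ 2) := by
              gcongr
              exact h _ (by positivity)
          _ = ENNReal.ofReal (16 * c * (1 / 4) ^ j) := by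
              rw [← ENNReal.ofReal_mul (by positivity)]
              congr 1
              have e1 : ((1 : ℝ) / 16) ^ j = (1 / 4) ^ j * (1 / 4) ^ j := by
                rw [← mul_pow]; norm_num
              have e2 : ((2 : ℝ) ^ j * δ) ^ 2 = 4 ^ j * δ ^ 2 := by
                rw [mul_pow, ← pow_mul, mul_comm j 2, pow_mul]; norm_num
              have e3 : ((1 : ℝ) / 4) ^ j * 4 ^ j = 1 := by
                rw [← mul_pow]; norm_num
              rw [e1, e2]
              have e4 : 16 * ((1 / 4) ^ j * (1 / 4) ^ j) / δ ^ 2 * (c * (4 ^ j * δ ^ 2))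
                  = 16 * c * (1 / 4) ^ j * ((1 / 4) ^ j * 4 ^ j) := by
                field_simp
              rw [e4, e3, mul_one]
    _ = ENNReal.ofReal (∑' j : ℕ, 16 * c * (1 / 4) ^ j) := by
        rw [ENNReal.ofReal_tsum_of_nonneg]
        · intro j; positivity
        · exact (summable_geometric_of_lt_one (by norm_num) (by norm_num)).mul_left _
    _ ≤ ENNReal.ofReal (22 * c) := by
        apply ENNReal.ofReal_le_ofReal
        rw [tsum_mul_left, tsum_geometric_of_lt_one (by norm_num) (by norm_num)]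
        nlinarith

omit [SecondCountableTopology E] in
/-- zero density implies that the density kernel tends to zero -/
theorem tendsto_kap_of_density {τ : Measure E} [IsFiniteMeasure τ] {x : E}
    (h : ∀ t : ℝ, 0 < t → ∀ᶠ r : ℝ in 𝓝[>] 0, τ (closedBall x r) ≤ ENNReal.ofReal (t * r ^ 2)) :
    Tendsto (fun δ : ℝ => ∫⁻ y, kap δ x y ∂τ) (𝓝[>] 0) (𝓝 0) := by
  rw [ENNReal.tendsto_nhds_zero]
  intro ε hε
  obtain ⟨t, ht, ht2⟩ : ∃ t : ℝ, 0 < t ∧ ENNReal.ofReal (22 * t) ≤ ε / 2 := by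
    rcases eq_or_ne ε ∞ with he | he
    · exact ⟨1, one_pos, by rw [he, ENNReal.top_div_of_ne_top (by norm_num)]; exact le_top⟩
    · refine ⟨ε.toReal / 44, ?_, ?_⟩
      · have := ENNReal.toReal_pos hε.ne' he
        positivity
      · have e1 : 22 * (ε.toReal / 44) = ε.toReal / 2 := by ring
        rw [e1, ENNReal.ofReal_div_of_pos (by norm_num), ENNReal.ofReal_toReal he]
        simp
  obtain ⟨r0, hr0, hr⟩ : ∃ r0 : ℝ, 0 < r0 ∧ ∀ r : ℝ, 0 < r → r ≤ r0 →
      τ (closedBall x r) ≤ ENNReal.ofReal (t * r ^ 2) := by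
    have h1 := h t ht
    rw [eventually_nhdsWithin_iff, Metric.eventually_nhds_iff] at h1
    obtain ⟨e, he, h2⟩ := h1
    refine ⟨e / 2, by positivity, fun r hr hr2 => h2 ?_ hr⟩
    rw [Real.dist_eq, sub_zero, abs_of_pos hr]
    linarith
  -- the far part
  have hfar : Tendsto (fun δ : ℝ => ENNReal.ofReal (δ ^ 2 / r0 ^ 4) * τ univ) (𝓝[>] 0) (𝓝 0) := by
    have h1 : Tendsto (fun δ : ℝ => δ ^ 2 / r0 ^ 4) (𝓝[>] 0) (𝓝 0) := by
      have : Tendsto (fun δ : ℝ => δ ^ 2 / r0 ^ 4) (𝓝 0) (𝓝 (0 ^ 2 / r0 ^ 4)) := by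
        apply Continuous.tendsto
        fun_prop
      simp only [ne_eq, OfNat.ofNat_ne_zero, not_false_eq_true, zero_pow, zero_div] at this
      exact this.mono_left nhdsWithin_le_nhds
    have h2 := ENNReal.tendsto_ofReal h1
    rw [ENNReal.ofReal_zero] at h2
    have h3 := ENNReal.Tendsto.mul_const h2 (Or.inr (measure_ne_top τ univ))
    rwa [zero_mul] at h3
  have hε2 : (0 : ℝ≥0∞) < ε / 2 := ENNReal.half_pos hε.ne'
  filter_upwards [self_mem_nhdsWithin, hfar.eventually (gt_mem_nhds hε2)] with δ hδ hδ2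
  have hδ0 : (0 : ℝ) < δ := hδ
  have hnear : ∫⁻ y in closedBall x r0, kap δ x y ∂τ ≤ ENNReal.ofReal (22 * t) := by
    refine lintegral_kap_le ht.le ?_ hδ0
    intro r hr'
    rw [Measure.restrict_apply measurableSet_closedBall]
    rcases le_total r r0 with h1 | h1
    · exact (measure_mono inter_subset_left).trans (hr r hr' h1)
    · refine (measure_mono inter_subset_right).trans ((hr r0 hr0 le_rfl).trans ?_)
      apply ENNReal.ofReal_le_ofReal
      gcongr
  have hfar2 : ∫⁻ y in (closedBall x r0)ᶜ, kap δ x y ∂τ ≤ ENNReal.ofReal (δ ^ 2 / r0 ^ 4) * τ univ := by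
    calc ∫⁻ y in (closedBall x r0)ᶜ, kap δ x y ∂τ
        ≤ ∫⁻ _ in (closedBall x r0)ᶜ, ENNReal.ofReal (δ ^ 2 / r0 ^ 4) ∂τ := by
          refine setLIntegral_mono' measurableSet_closedBall.compl fun y hy => ?_
          unfold kap
          apply ENNReal.ofReal_le_ofReal
          rw [mem_compl_iff, mem_closedBall, not_le, dist_comm] at hy
          have h1 : r0 ^ 4 ≤ (δ ^ 2 + dist x y ^ 2) ^ 2 := by
            have h4 : r0 ^ 2 ≤ δ ^ 2 + dist x y ^ 2 := by
              have : r0 ^ 2 ≤ dist x y ^ 2 := by gcongr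
              nlinarith [sq_nonneg δ]
            calc r0 ^ 4 = (r0 ^ 2) ^ 2 := by ring
              _ ≤ _ := by gcongr
          gcongr
      _ = ENNReal.ofReal (δ ^ 2 / r0 ^ 4) * τ ((closedBall x r0)ᶜ) := by
          rw [setLIntegral_const]
      _ ≤ _ := by gcongr; exact subset_univ _
  calc ∫⁻ y, kap δ x y ∂τ
      = ∫⁻ y in closedBall x r0, kap δ x y ∂τ + ∫⁻ y in (closedBall x r0)ᶜ, kap δ x y ∂τ :=
        (lintegral_add_compl _ measurableSet_closedBall).symm
    _ ≤ ε / 2 + ε / 2 := add_le_add (hnear.trans ht2) (hfar2.trans hδ2.le)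
    _ = ε := ENNReal.add_halves ε

/-- `x ↦ ∫ kap δ x y dμ(y)` is measurable -/
lemma measurable_lintegral_kap (μ : Measure E) [SFinite μ] (δ : ℝ) :
    Measurable fun x : E => ∫⁻ y, kap δ x y ∂μ :=
  (measurable_kap2 δ).lintegral_prod_right'

lemma measurable_pot (μ : Measure E) [SFinite μ] : Measurable (pot μ) := by
  have : Measurable fun p : E × E => (ENNReal.ofReal (dist p.1 p.2 ^ 2))⁻¹ := by
    have : Measurable fun p : E × E => dist p.1 p.2 := measurable_dist
    exact (this.pow_const 2).ennreal_ofReal.inv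
  exact this.lintegral_prod_right'

lemma measurableSet_pot_ne_top (μ : Measure E) [SFinite μ] :
    MeasurableSet {x | pot μ x ≠ ∞} :=
  (measurable_pot μ) (measurableSet_singleton _).compl

/-- General form: if for `ν`-almost every `x` the density kernel of `τ` tends to zero at `x`,
and it is bounded, then the double integral tends to zero. -/
theorem pair_tendsto {ν τ : Measure E} [IsFiniteMeasure ν] [SFinite τ] {C : ℝ≥0∞} (hC : C ≠ ∞)
    (hb : ∀ᶠ δ : ℝ in 𝓝[>] 0, ∀ x, ∫⁻ y, kap δ x y ∂τ ≤ C)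
    (h : ∀ᵐ x ∂ν, Tendsto (fun δ : ℝ => ∫⁻ y, kap δ x y ∂τ) (𝓝[>] 0) (𝓝 0)) :
    Tendsto (fun δ : ℝ => ∫⁻ x, ∫⁻ y, kap δ x y ∂τ ∂ν) (𝓝[>] 0) (𝓝 0) := by
  have h0 : ∫⁻ _ : E, (0 : ℝ≥0∞) ∂ν = 0 := by simp
  rw [← h0]
  refine tendsto_lintegral_filter_of_dominated_convergence (fun _ => C) ?_ ?_ ?_ h
  · exact Eventually.of_forall fun δ => measurable_lintegral_kap τ δ
  · filter_upwards [hb] with δ hδ
    exact Eventually.of_forall hδ
  · rw [lintegral_const]
    exact ENNReal.mul_ne_top hC (measure_ne_top ν univ)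

/-- `∫_{x ∉ N_μ} ∫ kap δ x y dμ(y) dτ(x) → 0`, any finite measure `τ`. -/
theorem pair_tendsto_left {μ τ : Measure E} [IsFiniteMeasure τ] [SFinite μ] {C : ℝ≥0∞}
    (hC : C ≠ ∞) (hb : ∀ᶠ δ : ℝ in 𝓝[>] 0, ∀ x, ∫⁻ y, kap δ x y ∂μ ≤ C) :
    Tendsto (fun δ : ℝ => ∫⁻ x in {x | pot μ x ≠ ∞}, ∫⁻ y, kap δ x y ∂μ ∂τ) (𝓝[>] 0) (𝓝 0) := by
  refine pair_tendsto hC hb ?_
  filter_upwards [ae_restrict_mem (measurableSet_pot_ne_top μ)] with x hx
  exact tendsto_kap_of_pot hx

/-- `∫_{x ∉ N_μ} ∫ kap δ x y dτ(y) dμ(x) → 0` if `τ` has bounded two-dimensional density. -/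
theorem pair_tendsto_right {μ τ : Measure E} [IsFiniteMeasure τ] [IsFiniteMeasure μ] {C : ℝ≥0∞}
    (hC : C ≠ ∞) (hb : ∀ᶠ δ : ℝ in 𝓝[>] 0, ∀ x, ∫⁻ y, kap δ x y ∂τ ≤ C) :
    Tendsto (fun δ : ℝ => ∫⁻ x in {x | pot μ x ≠ ∞}, ∫⁻ y, kap δ x y ∂τ ∂μ) (𝓝[>] 0) (𝓝 0) := by
  refine pair_tendsto hC hb ?_
  filter_upwards [ae_restrict_mem (measurableSet_pot_ne_top μ),
    ae_restrict_of_ae (density_null (μ := μ) (τ := τ))] with x hx hx2
  exact tendsto_kap_of_density (hx2 hx)

omit [SecondCountableTopology E] in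
/-- the bound of the density kernel in the form used above, from a bound of the balls -/
theorem kap_bound_of_ball {τ : Measure E} {c : ℝ} (hc : 0 ≤ c)
    (h : ∀ x : E, ∀ r : ℝ, 0 < r → τ (closedBall x r) ≤ ENNReal.ofReal (c * r ^ 2)) :
    ∀ᶠ δ : ℝ in 𝓝[>] 0, ∀ x, ∫⁻ y, kap δ x y ∂τ ≤ ENNReal.ofReal (22 * c) := by
  filter_upwards [self_mem_nhdsWithin] with δ hδ x
  exact lintegral_kap_le hc (h x) hδ

omit [SecondCountableTopology E] in
/-- a bound of the density kernel gives a bound of the balls -/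
theorem ball_le_of_kap {τ : Measure E} {x : E} {c r : ℝ} (hr : 0 < r)
    (h : ∫⁻ y, kap r x y ∂τ ≤ ENNReal.ofReal c) :
    τ (closedBall x r) ≤ ENNReal.ofReal (4 * c * r ^ 2) := by
  have h3 : ENNReal.ofReal (1 / (4 * r ^ 2)) * τ (closedBall x r) ≤ ∫⁻ y, kap r x y ∂τ := by
    calc ENNReal.ofReal (1 / (4 * r ^ 2)) * τ (closedBall x r)
        = ∫⁻ _ in closedBall x r, ENNReal.ofReal (1 / (4 * r ^ 2)) ∂τ := by
          rw [setLIntegral_const]
      _ ≤ ∫⁻ y in closedBall x r, kap r x y ∂τ := by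
          refine setLIntegral_mono' measurableSet_closedBall fun y hy => ?_
          unfold kap
          apply ENNReal.ofReal_le_ofReal
          rw [mem_closedBall, dist_comm] at hy
          have hd : 0 ≤ dist x y := dist_nonneg
          have hd2 : dist x y ^ 2 ≤ r ^ 2 := by gcongr
          rw [div_le_div_iff₀ (by positivity) (by positivity)]
          have : (r ^ 2 + dist x y ^ 2) ^ 2 ≤ (2 * r ^ 2) ^ 2 := by
            gcongr; linarith
          nlinarith
      _ ≤ ∫⁻ y, kap r x y ∂τ := setLIntegral_le_lintegral _ _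
  have h4 := h3.trans h
  have hne : ENNReal.ofReal (1 / (4 * r ^ 2)) ≠ 0 := by
    rw [Ne, ENNReal.ofReal_eq_zero, not_le]; positivity
  have h5 : τ (closedBall x r) ≤ (ENNReal.ofReal (1 / (4 * r ^ 2)))⁻¹ * ENNReal.ofReal c := by
    rw [← ENNReal.mul_le_iff_le_inv hne ENNReal.ofReal_ne_top]
    exact h4
  refine h5.trans (le_of_eq ?_)
  rw [← ENNReal.ofReal_inv_of_pos (by positivity), ← ENNReal.ofReal_mul (by positivity)]
  congr 1
  field_simp

end TCPair
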