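import Pool.Agent.W_MP_d8b8b7_h77.G6Def

/-!
# (G6) the potential of a finite measure is finite almost everywhere
-/

namespace Pool.Agent.W_MP_d8b8b7_gt

open MeasureTheory Set Filter Topology
open scoped ContDiff ENNReal

variable {N : ℕ}

/-- dyadic upper bound of the kernel `|x-y|⁻²` -/
theorem g6ap_inv_le (x y : EN N) : (ENNReal.ofReal (dist x y ^ 2))⁻¹ ≤
    1 + ∑' j : ℕ, (Metric.closedBall y ((1 / 2 : ℝ) ^ j)).indicator
      (fun _ => (4 : ℝ≥0∞) ^ (j + 1)) x := by
  rcases eq_or_ne x y with hxy | hxy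
  · subst hxy
    have htop : ∑' j : ℕ, (Metric.closedBall x ((1 / 2 : ℝ) ^ j)).indicator
        (fun _ => (4 : ℝ≥0∞) ^ (j + 1)) x = ⊤ := by
      by_contra hne
      obtain ⟨n, hn⟩ := ENNReal.exists_nat_gt hne
      have h1 : (4 : ℝ≥0∞) ^ (n + 1) ≤ ∑' j : ℕ, (Metric.closedBall x ((1 / 2 : ℝ) ^ j)).indicator
          (fun _ => (4 : ℝ≥0∞) ^ (j + 1)) x := by
        have h2 := ENNReal.le_tsum (f := fun j : ℕ => (Metric.closedBall x ((1 / 2 : ℝ) ^ j)).indicator
          (fun _ => (4 : ℝ≥0∞) ^ (j + 1)) x) n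
        rwa [indicator_of_mem (Metric.mem_closedBall_self (by positivity))] at h2
      have h3 : (n : ℝ≥0∞) ≤ (4 : ℝ≥0∞) ^ (n + 1) := by
        have h4 : n ≤ 4 ^ (n + 1) := by
          have h5 : n + 1 < 4 ^ (n + 1) := Nat.lt_pow_self (by norm_num)
          omega
        exact_mod_cast h4
      exact absurd (hn.trans_le (h3.trans h1)) (lt_irrefl _)
    rw [htop]
    simp
  · have hd : 0 < dist x y := dist_pos.2 hxy
    by_cases h1 : 1 ≤ dist x y
    · have h2 : (1 : ℝ≥0∞) ≤ ENNReal.ofReal (dist x y ^ 2) := by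
        rw [← ENNReal.ofReal_one]
        exact ENNReal.ofReal_le_ofReal (by nlinarith)
      exact (ENNReal.inv_le_one.mpr h2).trans le_self_add
    · push Not at h1
      obtain ⟨n, hn1, hn2⟩ := exists_nat_pow_near_of_lt_one hd h1.le
        (by norm_num : (0 : ℝ) < 1 / 2) (by norm_num)
      have hmem : x ∈ Metric.closedBall y ((1 / 2 : ℝ) ^ n) := Metric.mem_closedBall.mpr hn2
      have h2 := ENNReal.le_tsum (f := fun j : ℕ => (Metric.closedBall y ((1 / 2 : ℝ) ^ j)).indicator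
          (fun _ => (4 : ℝ≥0∞) ^ (j + 1)) x) n
      rw [indicator_of_mem hmem] at h2
      refine le_trans ?_ (h2.trans le_add_self)
      rw [← ENNReal.ofReal_inv_of_pos (by positivity)]
      have h3 : (4 : ℝ≥0∞) ^ (n + 1) = ENNReal.ofReal ((4 : ℝ) ^ (n + 1)) := by
        rw [ENNReal.ofReal_pow (by norm_num)]
        norm_num
      rw [h3]
      apply ENNReal.ofReal_le_ofReal
      have h4 : ((1 / 2 : ℝ) ^ (n + 1)) ^ 2 ≤ dist x y ^ 2 := by
        gcongr
      have h5 : ((1 / 2 : ℝ) ^ (n + 1)) ^ 2 = ((4 : ℝ) ^ (n + 1))⁻¹ := by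
        rw [← pow_mul, mul_comm, pow_mul, ← inv_pow]
        norm_num
      rw [h5] at h4
      rw [inv_le_comm₀ (by positivity) (by positivity)]
      exact h4

namespace Setup

variable (S : Setup N)

/-- ∫ |x - y|^{-2} dν(x) ≤ C, uniformly in y ∈ R^N: dyadic decomposition and `vol_ball`.
ν({y}) = 0 by `vol_ball` (r → 0).  On 2^{-j-1} < |x - y| ≤ 2^{-j} (j ≥ 0) the integrand is at most
4^{j+1} and the measure at most C1 16^{-j}; on |x - y| > 1 the integrand is at most 1. -/
theorem g6_lintegral_inv : ∃ C : ℝ, 0 ≤ C ∧ ∀ y : EN N,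
    ∫⁻ x, (ENNReal.ofReal (dist x y ^ 2))⁻¹ ∂S.nu ≤ ENNReal.ofReal C := by
  have hC1 : 0 ≤ S.C1 := by linarith [S.one_le_C1]
  refine ⟨(S.nu Set.univ).toReal + 6 * S.C1, by positivity, fun y => ?_⟩
  calc ∫⁻ x, (ENNReal.ofReal (dist x y ^ 2))⁻¹ ∂S.nu
      ≤ ∫⁻ x, (1 + ∑' j : ℕ, (Metric.closedBall y ((1 / 2 : ℝ) ^ j)).indicator
          (fun _ => (4 : ℝ≥0∞) ^ (j + 1)) x) ∂S.nu :=
        lintegral_mono fun x => g6ap_inv_le x y
    _ = S.nu Set.univ + ∫⁻ x, (∑' j : ℕ, (Metric.closedBall y ((1 / 2 : ℝ) ^ j)).indicator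
          (fun _ => (4 : ℝ≥0∞) ^ (j + 1)) x) ∂S.nu := by
        rw [lintegral_add_left measurable_const, lintegral_one]
    _ = S.nu Set.univ + ∑' j : ℕ, (4 : ℝ≥0∞) ^ (j + 1) *
          S.nu (Metric.closedBall y ((1 / 2 : ℝ) ^ j)) := by
        congr 1
        rw [lintegral_tsum fun j =>
          (measurable_const.indicator Metric.isClosed_closedBall.measurableSet).aemeasurable]
        congr 1
        ext j
        rw [lintegral_indicator Metric.isClosed_closedBall.measurableSet, setLIntegral_const]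
    _ ≤ S.nu Set.univ + ∑' j : ℕ, ENNReal.ofReal (4 * S.C1 * (1 / 4) ^ j) := by
        refine add_le_add_right (ENNReal.tsum_le_tsum fun j => ?_) _
        calc (4 : ℝ≥0∞) ^ (j + 1) * S.nu (Metric.closedBall y ((1 / 2 : ℝ) ^ j))
            ≤ (4 : ℝ≥0∞) ^ (j + 1) * ENNReal.ofReal (S.C1 * ((1 / 2 : ℝ) ^ j) ^ 4) := by
              gcongr
              exact S.vol_ball y _ (by positivity)
          _ = ENNReal.ofReal (4 * S.C1 * (1 / 4) ^ j) := by
              have h3 : (4 : ℝ≥0∞) ^ (j + 1) = ENNReal.ofReal ((4 : ℝ) ^ (j + 1)) := by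
                rw [ENNReal.ofReal_pow (by norm_num)]
                norm_num
              rw [h3, ← ENNReal.ofReal_mul (by positivity)]
              congr 1
              have h4 : ((1 / 2 : ℝ) ^ j) ^ 4 = (1 / 16) ^ j := by
                rw [← pow_mul, mul_comm, pow_mul]
                norm_num
              have h5 : (4 : ℝ) ^ j * (1 / 16) ^ j = (1 / 4) ^ j := by
                rw [← mul_pow]
                norm_num
              rw [h4, pow_succ, ← h5]
              ring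
    _ = S.nu Set.univ + ENNReal.ofReal (∑' j : ℕ, 4 * S.C1 * (1 / 4) ^ j) := by
        rw [ENNReal.ofReal_tsum_of_nonneg]
        · intro j
          positivity
        · exact (summable_geometric_of_lt_one (by norm_num) (by norm_num)).mul_left _
    _ ≤ ENNReal.ofReal ((S.nu Set.univ).toReal + 6 * S.C1) := by
        rw [ENNReal.ofReal_add ENNReal.toReal_nonneg (by positivity),
          ENNReal.ofReal_toReal (measure_ne_top _ _)]
        refine add_le_add_right (ENNReal.ofReal_le_ofReal ?_) _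
        rw [tsum_mul_left, tsum_geometric_of_lt_one (by norm_num) (by norm_num)]
        nlinarith

/-- hence (Tonelli) the potential of a finite measure is finite ν-almost everywhere -/
theorem g6_ae_pot (μ : Measure (EN N)) [IsFiniteMeasure μ] :
    ∀ᵐ x ∂S.nu, TCPair.pot μ x ≠ (⊤ : ℝ≥0∞) := by
  obtain ⟨C, _, hC⟩ := S.g6_lintegral_inv
  have hmeas : Measurable (fun p : EN N × EN N => (ENNReal.ofReal (dist p.1 p.2 ^ 2))⁻¹) := by
    have h1 : Measurable fun p : EN N × EN N => dist p.1 p.2 := measurable_dist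
    exact (h1.pow_const 2).ennreal_ofReal.inv
  have hswap : ∫⁻ x, TCPair.pot μ x ∂S.nu =
      ∫⁻ y, ∫⁻ x, (ENNReal.ofReal (dist x y ^ 2))⁻¹ ∂S.nu ∂μ :=
    lintegral_lintegral_swap (f := fun x y : EN N => (ENNReal.ofReal (dist x y ^ 2))⁻¹)
      hmeas.aemeasurable
  have hfin : ∫⁻ x, TCPair.pot μ x ∂S.nu ≠ ⊤ := by
    rw [hswap]
    refine ne_top_of_le_ne_top (ENNReal.mul_ne_top (ENNReal.ofReal_ne_top (r := C))
      (measure_ne_top μ Set.univ)) ?_
    calc ∫⁻ y, ∫⁻ x, (ENNReal.ofReal (dist x y ^ 2))⁻¹ ∂S.nu ∂μ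
        ≤ ∫⁻ _, ENNReal.ofReal C ∂μ := lintegral_mono fun y => hC y
      _ = ENNReal.ofReal C * μ Set.univ := by rw [lintegral_const]
  filter_upwards [ae_lt_top (TCPair.measurable_pot μ) hfin] with x hx using hx.ne

/-- a lower bound by ε F survives the cut: `low (tr m)` has full mF measure -/
theorem g6_cut_ge {m : Measure (EN N × EN N)} (hm : S.IsPos m) {ε : ℝ}
    (h : ENNReal.ofReal ε • S.mF ≤ m) :
    ENNReal.ofReal ε • S.mF ≤ m.restrict (low (tr m)) := by
  have hfin : IsFiniteMeasure (tr m) := hm.isFin_tr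
  have hlow : MeasurableSet (low (tr m)) := measurableSet_low (tr m)
  have hpot := S.g6_ae_pot (tr m)
  have hmap : ∀ a : Fin 4, ∀ᵐ z ∂(S.nu.map (fun x => (x, S.fr a x))), z ∈ low (tr m) := by
    intro a
    have hma : Measurable (fun x => (x, S.fr a x)) := measurable_id.prodMk (S.meas_fr a)
    refine (ae_map_iff (p := fun z => z ∈ low (tr m)) hma.aemeasurable hlow).mpr ?_
    filter_upwards [hpot] with x hx using hx
  have hmF : ∀ᵐ z ∂S.mF, z ∈ low (tr m) := by
    unfold mF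
    rw [ae_add_measure_iff]
    exact ⟨hmap 0, hmap 2⟩
  have h1 : (ENNReal.ofReal ε • S.mF).restrict (low (tr m)) = ENNReal.ofReal ε • S.mF :=
    Measure.restrict_eq_self_of_ae_mem (Measure.ae_smul_measure hmF _)
  rw [← h1]
  exact Measure.restrict_mono_measure h _

end Setup

end Pool.Agent.W_MP_d8b8b7_gt
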