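import Pool.Agent.W_MP_d8b8b7_gt.Currents
import Pool.Agent.W_MP_d8b8b7_h77.PairLim

/-!
# (G6) definitions: cut currents, bounded density

`low μ` = unit tangent vectors over the points of finite potential of μ.
-/

namespace Pool.Agent.W_MP_d8b8b7_gt

open MeasureTheory Set Filter Topology
open scoped ContDiff ENNReal

variable {N : ℕ}

/-- the vectors over the points of finite potential of μ -/
def low (μ : Measure (EN N)) : Set (EN N × EN N) := {z | TCPair.pot μ z.1 ≠ (⊤ : ℝ≥0∞)}

theorem measurableSet_low (μ : Measure (EN N)) [SFinite μ] : MeasurableSet (low μ) :=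
  measurable_fst (TCPair.measurableSet_pot_ne_top μ)

/-- the current m has bounded two-dimensional density -/
def Dens2 (m : Measure (EN N × EN N)) : Prop :=
  ∃ c : ℝ, 0 ≤ c ∧ ∀ (x : EN N) (r : ℝ), 0 < r →
    tr m (Metric.closedBall x r) ≤ ENNReal.ofReal (c * r ^ 2)

theorem tr_mono {m m' : Measure (EN N × EN N)} (h : m ≤ m') : tr m ≤ tr m' :=
  Measure.map_mono h measurable_fst

theorem Dens2.mono {m m' : Measure (EN N × EN N)} (h : Dens2 m') (hm : m ≤ m') : Dens2 m := by
  obtain ⟨c, hc, hb⟩ := h
  exact ⟨c, hc, fun x r hr => (tr_mono hm _).trans (hb x r hr)⟩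

theorem tr_apply (m : Measure (EN N × EN N)) {s : Set (EN N)} (hs : MeasurableSet s) :
    tr m s = m (Prod.fst ⁻¹' s) := Measure.map_apply measurable_fst hs

theorem tr_restrict_low (m : Measure (EN N × EN N)) (μ : Measure (EN N)) [SFinite μ] :
    tr (m.restrict (low μ)) = (tr m).restrict {x | TCPair.pot μ x ≠ (⊤ : ℝ≥0∞)} :=
  (Measure.restrict_map measurable_fst (TCPair.measurableSet_pot_ne_top μ)).symm

namespace Setup

variable {S : Setup N}

theorem IsPos.isFin_tr {m : Measure (EN N × EN N)} (hm : S.IsPos m) : IsFiniteMeasure (tr m) := by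
  have := hm.fin
  exact Measure.isFiniteMeasure_map m _

theorem IsPos.restrict {m : Measure (EN N × EN N)} (hm : S.IsPos m) (s : Set (EN N × EN N)) :
    S.IsPos (m.restrict s) := by
  have := hm.fin
  exact ⟨inferInstance, le_antisymm ((Measure.restrict_apply_le s _).trans hm.supp.le) bot_le⟩

theorem IsPos.mono {m m' : Measure (EN N × EN N)} (hm : S.IsPos m) (h : m' ≤ m) :
    S.IsPos m' := by
  have := hm.fin
  exact ⟨isFiniteMeasure_of_le m h, le_antisymm ((h _).trans hm.supp.le) bot_le⟩

end Setup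

end Pool.Agent.W_MP_d8b8b7_gt
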