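import Pool.Agent.W_MP_d8b8b7_gt.RbL2
import Pool.Agent.W_MP_d8b8b7_gt.Second
import Pool.Agent.W_MP_d8b8b7_h77.G6Def

/-!
# (G6) pointwise bound of the anti-invariant part of a regularisation
-/

namespace Pool.Agent.W_MP_d8b8b7_gt

open MeasureTheory Set Filter Topology
open scoped ContDiff ENNReal

variable {N : ℕ}

namespace Setup

variable (S : Setup N)

/-- the J-anti-invariant part of a form with given components -/
theorem g6a_sub_J {z : EN N} (hz : z ∈ S.X) (c : C6) (u w : EN N) :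
    S.rc (fun _ => c) z u w - S.rc (fun _ => c) z (S.J z u) (S.J z w) =
      2 * S.rc (fun _ => pr2 c) z u w := by
  rw [S.rc_apply, S.rc_apply, S.rc_apply, S.pt_th0_J hz, S.pt_th1_J hz, S.pt_th2_J hz,
    S.pt_th3_J hz, S.pt_th0_J hz, S.pt_th1_J hz, S.pt_th2_J hz, S.pt_th3_J hz]
  simp only [pr2_c0, pr2_c1, pr2_c2, pr2_c3, pr2_c4, pr2_c5]
  ring

/-- pointwise bound for one value of the translation -/
theorem g6a_point : ∃ C : ℝ, 0 ≤ C ∧ ∀ x ∈ S.X, ∀ h : EN N, ‖h‖ < S.d0 → ∀ a b : Fin 4, ∀ c : C6,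
    |S.rc (fun _ => c) (S.rho (x + h)) (S.D (x + h) (S.fr a x)) (S.D (x + h) (S.fr b x)) -
      S.rc (fun _ => c) (S.rho (x + h)) (S.D (x + h) (S.J x (S.fr a x)))
        (S.D (x + h) (S.J x (S.fr b x)))| ≤ C * (‖pr2 c‖ + ‖h‖ * ‖c‖) := by
  obtain ⟨C, hC1, hX1, hC⟩ := S.Second_data
  have h0 : 0 ≤ C := by linarith
  refine ⟨2 * C ^ 7, by positivity, fun x hx h hh a b c => ?_⟩
  obtain ⟨hzX, ⟨hJx, hJz⟩, ⟨-, hD⟩, he, hrc, -, hfr, -⟩ := hC x hx h hh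
  set z := S.rho (x + h) with hzdef
  set A := S.D (x + h) with hA
  set v := S.fr a x with hv
  set w := S.fr b x with hw
  have hvt : S.Tan x v := S.pt_Dfr hx a
  have hwt : S.Tan x w := S.pt_Dfr hx b
  have nv : ‖v‖ ≤ C := (hfr a).1
  have nw : ‖w‖ ≤ C := (hfr b).1
  have nAv : ‖A v‖ ≤ C * C := (A.le_of_opNorm_le hD v).trans (by gcongr)
  have nAw : ‖A w‖ ≤ C * C := (A.le_of_opNorm_le hD w).trans (by gcongr)
  have nJAv : ‖S.J z (A v)‖ ≤ C * (C * C) := ((S.J z).le_of_opNorm_le hJz _).trans (by gcongr)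
  have nJw : ‖S.J x w‖ ≤ C * C := ((S.J x).le_of_opNorm_le hJx w).trans (by gcongr)
  have nAJw : ‖A (S.J x w)‖ ≤ C * (C * C) := (A.le_of_opNorm_le hD _).trans (by gcongr)
  have ev : ‖A (S.J x v) - S.J z (A v)‖ ≤ C * ‖h‖ * C := (he v hvt).trans (by gcongr)
  have ew : ‖A (S.J x w) - S.J z (A w)‖ ≤ C * ‖h‖ * C := (he w hwt).trans (by gcongr)
  have e1 : S.rc (fun _ => c) z (A v) (A w) -
      S.rc (fun _ => c) z (A (S.J x v)) (A (S.J x w)) =
      2 * S.rc (fun _ => pr2 c) z (A v) (A w) -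
        S.rc (fun _ => c) z (S.J z (A v)) (A (S.J x w) - S.J z (A w)) -
        S.rc (fun _ => c) z (A (S.J x v) - S.J z (A v)) (A (S.J x w)) := by
    rw [← S.g6a_sub_J hzX, Bil.sub_right, Bil.sub_left]
    ring
  rw [e1]
  have b1 : |S.rc (fun _ => pr2 c) z (A v) (A w)| ≤ C ^ 7 * ‖pr2 c‖ := by
    calc |S.rc (fun _ => pr2 c) z (A v) (A w)|
        ≤ ‖S.rc (fun _ => pr2 c) z‖ * ‖A v‖ * ‖A w‖ := Bil.abs_apply_le _ _ _
      _ ≤ (C * ‖pr2 c‖) * (C * C) * (C * C) := by gcongr; exact hrc _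
      _ = C ^ 5 * ‖pr2 c‖ := by ring
      _ ≤ C ^ 7 * ‖pr2 c‖ := by
        gcongr
        norm_num
  have b2 : |S.rc (fun _ => c) z (S.J z (A v)) (A (S.J x w) - S.J z (A w))| ≤
      C ^ 7 * (‖h‖ * ‖c‖) := by
    calc |S.rc (fun _ => c) z (S.J z (A v)) (A (S.J x w) - S.J z (A w))|
        ≤ ‖S.rc (fun _ => c) z‖ * ‖S.J z (A v)‖ * ‖A (S.J x w) - S.J z (A w)‖ :=
          Bil.abs_apply_le _ _ _
      _ ≤ (C * ‖c‖) * (C * (C * C)) * (C * ‖h‖ * C) := by gcongr; exact hrc _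
      _ = C ^ 6 * (‖h‖ * ‖c‖) := by ring
      _ ≤ C ^ 7 * (‖h‖ * ‖c‖) := by
        gcongr
        norm_num
  have b3 : |S.rc (fun _ => c) z (A (S.J x v) - S.J z (A v)) (A (S.J x w))| ≤
      C ^ 7 * (‖h‖ * ‖c‖) := by
    calc |S.rc (fun _ => c) z (A (S.J x v) - S.J z (A v)) (A (S.J x w))|
        ≤ ‖S.rc (fun _ => c) z‖ * ‖A (S.J x v) - S.J z (A v)‖ * ‖A (S.J x w)‖ :=
          Bil.abs_apply_le _ _ _
      _ ≤ (C * ‖c‖) * (C * ‖h‖ * C) * (C * (C * C)) := by gcongr; exact hrc _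
      _ = C ^ 6 * (‖h‖ * ‖c‖) := by ring
      _ ≤ C ^ 7 * (‖h‖ * ‖c‖) := by
        gcongr
        norm_num
  rw [abs_le] at b1 b2 b3 ⊢
  constructor
  · nlinarith [b1.1, b1.2, b2.1, b2.2, b3.1, b3.2]
  · nlinarith [b1.1, b1.2, b2.1, b2.2, b3.1, b3.2]

/-- the same for the regularisation -/
theorem g6a_int : ∃ C : ℝ, 0 ≤ C ∧ ∀ x ∈ S.X, ∀ δ : ℝ, 0 < δ → δ ≤ S.d0 / 2 →
    ∀ p : EN N → ℝ, Continuous p → (∀ s, |p s| ≤ 1) → (∀ s, 1 ≤ ‖s‖ → p s = 0) →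
    ∀ b : EN N → C6, S.L2F b → ∀ i j : Fin 4,
      |S.Rb p δ b x (S.fr i x) (S.fr j x) - S.Rb p δ b x (S.J x (S.fr i x)) (S.J x (S.fr j x))| ≤
        C * ∫ s in Metric.ball 0 1,
        (‖pr2 (b (S.rho (x + δ • s)))‖ + δ * ‖b (S.rho (x + δ • s))‖) := by
  obtain ⟨C, hC0, hC⟩ := S.g6a_point
  obtain ⟨C', -, hball⟩ := S.integral_ball_le
  refine ⟨C, hC0, fun x hx δ hδ hδ' p hpc hp hps b hb i j => ?_⟩
  have hd0 := S.d0_pos
  have hi1 := (hball x hx δ hδ hδ' b hb).1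
  have hi2 := (hball x hx δ hδ hδ' _ hb.pr2).1
  have hint : Integrable ((Metric.ball (0 : EN N) 1).indicator fun s =>
      C * (‖pr2 (b (S.rho (x + δ • s)))‖ + δ * ‖b (S.rho (x + δ • s))‖)) volume := by
    rw [integrable_indicator_iff Metric.isOpen_ball.measurableSet]
    exact (hi2.add (hi1.const_mul δ)).const_mul C
  have h1 := S.rbAlg_int_s hpc hps hδ hb x
  have e1 : S.Rb p δ b x (S.fr i x) (S.fr j x) -
      S.Rb p δ b x (S.J x (S.fr i x)) (S.J x (S.fr j x)) =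
      ∫ s, ((p s • Bil.pull (S.D (x + δ • s)) (S.ex b (x + δ • s))) (S.fr i x) (S.fr j x) -
        (p s • Bil.pull (S.D (x + δ • s)) (S.ex b (x + δ • s))) (S.J x (S.fr i x))
          (S.J x (S.fr j x))) := by
    unfold Rb
    rw [Bil.integral_apply h1, Bil.integral_apply h1,
      ← integral_sub (Bil.integrable_apply h1 _ _) (Bil.integrable_apply h1 _ _)]
  rw [e1, ← integral_const_mul, ← integral_indicator Metric.isOpen_ball.measurableSet,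
    ← Real.norm_eq_abs]
  refine norm_integral_le_of_norm_le hint (Filter.Eventually.of_forall fun s => ?_)
  by_cases hs : s ∈ Metric.ball (0 : EN N) 1
  · rw [Set.indicator_of_mem hs]
    have hs' : ‖s‖ < 1 := by rwa [mem_ball_zero_iff] at hs
    have hy := S.rbAlg_mem_Ud hx hδ hδ' hs'
    have h2 : S.ex b (x + δ • s) = S.rc b (S.rho (x + δ • s)) := Set.indicator_of_mem hy _
    have h3 : S.rc b (S.rho (x + δ • s)) =
        S.rc (fun _ => b (S.rho (x + δ • s))) (S.rho (x + δ • s)) := rfl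
    have hn : ‖δ • s‖ ≤ δ := by
      rw [norm_smul, Real.norm_eq_abs, abs_of_pos hδ]
      nlinarith
    have h4 := hC x hx (δ • s) (by linarith) i j (b (S.rho (x + δ • s)))
    rw [h2, h3, Real.norm_eq_abs]
    simp only [Bil.smul_apply, Bil.pull_apply]
    rw [← mul_sub, abs_mul]
    refine (mul_le_mul (hp s) h4 (abs_nonneg _) zero_le_one).trans ?_
    rw [one_mul]
    gcongr
  · rw [Set.indicator_of_notMem hs]
    have hs' : 1 ≤ ‖s‖ := by
      rw [mem_ball_zero_iff, not_lt] at hs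
      exact hs
    simp [hps s hs']

/-- Pointwise bound.  With β = Rb p δ b x = ∫ p(s) A^* c ds, A = D (x + δ s), c = rc b (rho (x + δ s))
(everything inside Ud because ‖δ s‖ < d0/2) the components of pr2 (cp β x) are
(β(f0,f2) - β(Jf0,Jf2))/2 and (β(f0,Jf2) + β(Jf0,f2))/2 (f1 = J f0, f3 = J f2 by `fr_J0`, `fr_J2`).
For each s: c(A f0, A f2) - c(A J f0, A J f2) = c(u,v) - c(J u, J v) + O(δ ‖b(y)‖) with u = A f0,
v = A f2, y = rho (x + δ s), by `D_J_comm`, and c(u,v) - c(J u, J v) = O(‖pr2 (b y)‖) for tangent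
vectors u, v at y (expand in the frame at y: `fr_span`; only the components c(f0,f2) - c(f1,f3) and
c(f0,f3) + c(f1,f2) occur).  Bounds of D, J, frame: see the beginning of Second.lean / PtBound.lean. -/
theorem g6_norm_pr2_le : ∃ C : ℝ, 0 ≤ C ∧ ∀ x ∈ S.X, ∀ δ : ℝ, 0 < δ → δ ≤ S.d0 / 2 →
    ∀ p : EN N → ℝ, Continuous p → (∀ s, |p s| ≤ 1) → (∀ s, 1 ≤ ‖s‖ → p s = 0) →
    ∀ b : EN N → C6, S.L2F b →
      ‖pr2 (S.cp (S.Rb p δ b) x)‖ ≤ C * ∫ s in Metric.ball 0 1,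
        (‖pr2 (b (S.rho (x + δ • s)))‖ + δ * ‖b (S.rho (x + δ • s))‖) := by
  obtain ⟨C, hC0, hC⟩ := S.g6a_int
  refine ⟨3 * C, by positivity, fun x hx δ hδ hδ' p hpc hp hps b hb => ?_⟩
  set I : ℝ := ∫ s in Metric.ball 0 1,
    (‖pr2 (b (S.rho (x + δ • s)))‖ + δ * ‖b (S.rho (x + δ • s))‖) with hI
  have hI0 : 0 ≤ I := integral_nonneg fun s => by positivity
  have k1 := hC x hx δ hδ hδ' p hpc hp hps b hb 0 2
  have k2 := hC x hx δ hδ hδ' p hpc hp hps b hb 0 3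
  rw [S.fr_J0 x hx, S.fr_J2 x hx] at k1
  rw [S.fr_J0 x hx, S.J_fr3 hx, Bil.neg_right, sub_neg_eq_add] at k2
  have c1 : |S.cp (S.Rb p δ b) x 1 - S.cp (S.Rb p δ b) x 4| ≤ C * I := k1
  have c2 : |S.cp (S.Rb p δ b) x 2 + S.cp (S.Rb p δ b) x 3| ≤ C * I := k2
  have hCI : 0 ≤ C * I := by positivity
  have e1 : |(S.cp (S.Rb p δ b) x 1 - S.cp (S.Rb p δ b) x 4) / 2| ≤ C * I := by
    rw [abs_div, abs_of_pos (by norm_num : (0 : ℝ) < 2)]
    linarith
  have e2 : |(S.cp (S.Rb p δ b) x 2 + S.cp (S.Rb p δ b) x 3) / 2| ≤ C * I := by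
    rw [abs_div, abs_of_pos (by norm_num : (0 : ℝ) < 2)]
    linarith
  have e3 : |(S.cp (S.Rb p δ b) x 4 - S.cp (S.Rb p δ b) x 1) / 2| ≤ C * I := by
    rw [abs_div, abs_of_pos (by norm_num : (0 : ℝ) < 2), abs_sub_comm]
    linarith
  have h := PtBound_norm6 (pr2 (S.cp (S.Rb p δ b) x)) (M := C * I) hCI (by
    intro i
    fin_cases i
    · change |(0 : ℝ)| ≤ C * I
      rw [abs_zero]
      exact hCI
    · exact e1
    · exact e2
    · exact e2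
    · exact e3
    · change |(0 : ℝ)| ≤ C * I
      rw [abs_zero]
      exact hCI)
  linarith

end Setup

end Pool.Agent.W_MP_d8b8b7_gt
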