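import Pool.Agent.W_MP_d8b8b7_h77.G6Anti

/-!
# (G6) L1 bound of the anti-invariant part of a regularisation
-/

namespace Pool.Agent.W_MP_d8b8b7_gt

open MeasureTheory Set Filter Topology
open scoped ContDiff ENNReal

variable {N : ℕ}

/-- the positive part dominates, without integrability -/
theorem g6AntiL1_ofReal_integral_le {α : Type*} [MeasurableSpace α] {μ : Measure α} (f : α → ℝ) :
    ENNReal.ofReal (∫ x, f x ∂μ) ≤ ∫⁻ x, ENNReal.ofReal (f x) ∂μ := by
  by_cases hf : Integrable f μ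
  · rw [integral_eq_lintegral_pos_part_sub_lintegral_neg_part hf]
    refine (ENNReal.ofReal_le_ofReal (sub_le_self _ ENNReal.toReal_nonneg)).trans ?_
    exact ENNReal.ofReal_toReal_le
  · rw [integral_undef hf, ENNReal.ofReal_zero]
    exact zero_le

namespace Setup

variable (S : Setup N)

/-- integrate over ν: `lintegral_ker_le` -/
theorem g6_integral_pr2_le : ∃ C : ℝ, 0 ≤ C ∧ ∀ δ : ℝ, 0 < δ → δ ≤ S.d0 / 2 →
    ∀ p : EN N → ℝ, Continuous p → (∀ s, |p s| ≤ 1) → (∀ s, 1 ≤ ‖s‖ → p s = 0) →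
    ∀ b : EN N → C6, S.L2F b →
      ∫ x, ‖pr2 (S.cp (S.Rb p δ b) x)‖ ∂S.nu ≤
        C * ∫ x, (‖pr2 (b x)‖ + δ * ‖b x‖) ∂S.nu := by
  obtain ⟨C, hC, hpt⟩ := S.g6_norm_pr2_le
  obtain ⟨C', hC', hker⟩ := S.lintegral_ker_le
  refine ⟨C * C', by positivity, ?_⟩
  intro δ hδ hδ' p hp hp1 hps b hb
  obtain ⟨f, hf⟩ : ∃ f : EN N → ℝ, f = fun y => ‖pr2 (b y)‖ + δ * ‖b y‖ := ⟨_, rfl⟩
  have hf0 : ∀ y, 0 ≤ f y := fun y => by rw [hf]; positivity
  have hb2 := L2F.pr2 S hb
  have hi1 : Integrable (fun y => ‖pr2 (b y)‖) S.nu := (hb2.memLp.integrable one_le_two).norm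
  have hi2 : Integrable (fun y => ‖b y‖) S.nu := (hb.memLp.integrable one_le_two).norm
  have hfi : Integrable f S.nu := by
    rw [hf]
    exact hi1.add (hi2.const_mul δ)
  have hfm : Measurable f := by
    rw [hf]
    exact hb2.meas.norm.add (hb.meas.norm.const_mul δ)
  have hI : 0 ≤ ∫ x, f x ∂S.nu := integral_nonneg hf0
  have key : ENNReal.ofReal (∫ x, ‖pr2 (S.cp (S.Rb p δ b) x)‖ ∂S.nu) ≤
      ENNReal.ofReal (C * C' * ∫ x, f x ∂S.nu) := by
    refine (g6AntiL1_ofReal_integral_le _).trans ?_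
    calc ∫⁻ x, ENNReal.ofReal ‖pr2 (S.cp (S.Rb p δ b) x)‖ ∂S.nu
        ≤ ∫⁻ x, ENNReal.ofReal C * ∫⁻ s in Metric.ball 0 1,
            ENNReal.ofReal (f (S.rho (x + δ • s))) ∂volume ∂S.nu := by
          refine lintegral_mono_ae ?_
          filter_upwards [S.ae_mem_X] with x hx
          have h1 := hpt x hx δ hδ hδ' p hp hp1 hps b hb
          have h2 : ∫ s in Metric.ball (0 : EN N) 1,
              (‖pr2 (b (S.rho (x + δ • s)))‖ + δ * ‖b (S.rho (x + δ • s))‖) =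
              ∫ s in Metric.ball (0 : EN N) 1, f (S.rho (x + δ • s)) := by
            rw [hf]
          rw [h2] at h1
          refine (ENNReal.ofReal_le_ofReal h1).trans ?_
          rw [ENNReal.ofReal_mul hC]
          exact mul_le_mul_right (g6AntiL1_ofReal_integral_le _) _
      _ = ENNReal.ofReal C * ∫⁻ x, ∫⁻ s in Metric.ball 0 1,
            ENNReal.ofReal (f (S.rho (x + δ • s))) ∂volume ∂S.nu :=
          lintegral_const_mul' _ _ ENNReal.ofReal_ne_top
      _ ≤ ENNReal.ofReal C * (ENNReal.ofReal C' * ∫⁻ y, ENNReal.ofReal (f y) ∂S.nu) :=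
          mul_le_mul_right (hker δ hδ hδ' (fun y => ENNReal.ofReal (f y)) hfm.ennreal_ofReal) _
      _ = ENNReal.ofReal (C * C' * ∫ x, f x ∂S.nu) := by
          rw [← ofReal_integral_eq_lintegral_ofReal hfi (Eventually.of_forall hf0),
            ← ENNReal.ofReal_mul hC', ← ENNReal.ofReal_mul hC, mul_assoc]
  have h3 := (ENNReal.ofReal_le_ofReal_iff (by positivity)).1 key
  rw [hf] at h3
  exact h3

end Setup

end Pool.Agent.W_MP_d8b8b7_gt
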