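import Pool.Agent.W_MP_d8b8b7_gt.MeasA

/-!
# (G6) the regularised fundamental form sees the whole mass
-/

namespace Pool.Agent.W_MP_d8b8b7_gt

open MeasureTheory Set Filter Topology
open scoped ContDiff ENNReal

variable {N : ℕ}

namespace Setup

variable (S : Setup N)

theorem g6_L2F_Fc : S.L2F (fun _ => Fc) :=
  ⟨measurable_const, memLp_const Fc⟩

/-- the integrand of `ev_Rb_val` is integrable -/
theorem g6PmF_integrable {z : EN N × EN N} (hz : z ∈ S.X1) {δ : ℝ} (hδ : 0 < δ)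
    (hδ' : δ ≤ S.d0 / 2) {q : EN N → ℝ} (hq : Continuous q) (hqs : ∀ s, 1 ≤ ‖s‖ → q s = 0)
    {b : EN N → C6} (hb : S.L2F b) :
    Integrable (fun s => q s * S.val z.1 (δ • s) z.2 (b (S.rho (z.1 + δ • s)))) volume := by
  have h1 := S.rbAlg_int_s hq hqs hδ hb z.1
  have h2 := Bil.integrable_apply h1 z.2 (S.J z.1 z.2)
  refine h2.congr (Filter.Eventually.of_forall fun s => ?_)
  simp only [Bil.smul_apply, Bil.pull_apply]
  rcases lt_or_ge ‖s‖ 1 with hs | hs
  · have h3 : S.ex b (z.1 + δ • s) = S.rc b (S.rho (z.1 + δ • s)) :=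
      Set.indicator_of_mem (S.rbAlg_mem_Ud hz.1 hδ hδ' hs) _
    rw [h3]
    rfl
  · rw [hqs s hs, zero_mul, zero_mul]

omit S in
/-- comparison of two integrals -/
theorem g6PmF_mono {q g : EN N → ℝ} (hq : Integrable q volume)
    (hg : Integrable (fun s => q s * g s) volume) (h0 : ∀ s, 0 ≤ q s)
    (hs : ∀ s, 1 ≤ ‖s‖ → q s = 0) (h : ∀ s, ‖s‖ < 1 → 1 / 2 ≤ g s) :
    1 / 2 * ∫ s, q s ≤ ∫ s, q s * g s := by
  rw [← integral_const_mul]
  refine integral_mono (hq.const_mul _) hg ?_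
  intro s
  simp only
  rcases lt_or_ge ‖s‖ 1 with h1 | h1
  · have h2 := h s h1
    have h3 := h0 s
    nlinarith
  · rw [hs s h1, mul_zero, zero_mul]

/-- By `ev_Rb_val` the value at z in X1 is ∫ q(s) val z.1 (δ s) z.2 Fc ds ≥ (1/2) ∫ q by `val_F`
(q ≥ 0 vanishes for ‖s‖ ≥ 1, and ‖δ s‖ < d₁ for ‖s‖ < 1); integrate over m (`integrable_ev`). -/
theorem g6_Pm_F : ∃ d₁ : ℝ, 0 < d₁ ∧ d₁ ≤ S.d0 / 2 ∧ ∀ δ : ℝ, 0 < δ → δ ≤ d₁ →
    ∀ q : EN N → ℝ, QProf 0 1 q → ∀ m : Measure (EN N × EN N), S.IsPos m →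
      1 / 2 * (∫ s, q s) * mass m ≤ S.Pm m (S.Rb q δ (fun _ => Fc)) := by
  obtain ⟨d, hd, -, hF⟩ := S.val_F
  have hd0 := S.d0_pos
  refine ⟨min (S.d0 / 2) d, lt_min (by positivity) hd, min_le_left _ _, ?_⟩
  intro δ hδ hδd q hq m hm
  have hδ0 : δ ≤ S.d0 / 2 := hδd.trans (min_le_left _ _)
  have hδ1 : δ ≤ d := hδd.trans (min_le_right _ _)
  have hfin := hm.fin
  have hL := S.g6_L2F_Fc
  have hqc : Continuous q := hq.smooth.continuous
  have hqcs : HasCompactSupport q := by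
    apply HasCompactSupport.intro (isCompact_closedBall (0 : EN N) 1)
    intro s hs
    apply hq.supp
    rw [Metric.mem_closedBall, not_le, dist_zero_right] at hs
    exact hs.le
  have hqi : Integrable q volume := hqc.integrable_of_hasCompactSupport hqcs
  have hpt : ∀ z ∈ S.X1, 1 / 2 * ∫ s, q s ≤ S.ev (S.Rb q δ (fun _ => Fc)) z := by
    intro z hz
    have hE := S.ev_Rb_val (b := fun _ => Fc) hz hδ hδ0 hqc hq.supp hL
    have hI := S.g6PmF_integrable (b := fun _ => Fc) hz hδ hδ0 hqc hq.supp hL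
    have hG : ∀ s : EN N, ‖s‖ < 1 → 1 / 2 ≤ S.val z.1 (δ • s) z.2 Fc := by
      intro s hs
      apply hF z hz (δ • s)
      rw [norm_smul, Real.norm_eq_abs, abs_of_pos hδ]
      exact (mul_lt_of_lt_one_right hδ hs).trans_le hδ1
    have hM := g6PmF_mono (g := fun s => S.val z.1 (δ • s) z.2 Fc) hqi hI hq.nonneg hq.supp hG
    exact hM.trans_eq hE.symm
  have hcont : Continuous (S.Rb q δ (fun _ => Fc)) :=
    (S.isForm_Rb hq.smooth hδ hL).smooth.continuous
  have hint := S.integrable_ev hm hcont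
  have hae : ∀ᵐ z ∂m, z ∈ S.X1 := by
    rw [ae_iff]
    exact hm.supp
  have h1 : ∫ _ : EN N × EN N, (1 / 2 * ∫ s, q s) ∂m ≤
      ∫ z, S.ev (S.Rb q δ (fun _ => Fc)) z ∂m := by
    apply integral_mono_ae (integrable_const _) hint
    filter_upwards [hae] with z hz
    exact hpt z hz
  rw [integral_const, smul_eq_mul] at h1
  have h2 : m.real univ = mass m := rfl
  rw [h2] at h1
  unfold Pm
  linarith

end Setup

end Pool.Agent.W_MP_d8b8b7_gt
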