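import Pool.Agent.W_MP_d8b8b7_h77.G6Def

/-!
# (G6) integrals of the averaged masses theta
-/

namespace Pool.Agent.W_MP_d8b8b7_gt

open MeasureTheory Set Filter Topology
open scoped ContDiff ENNReal

variable {N : ℕ}

theorem g6t_closed (r : ℝ) : IsClosed {p : EN N × EN N | dist p.2 p.1 ≤ r} :=
  isClosed_le (continuous_snd.dist continuous_fst) continuous_const

theorem g6t_measurable_ball (μ : Measure (EN N)) [IsFiniteMeasure μ] (r : ℝ) :
    Measurable (fun y : EN N => μ (Metric.closedBall y r)) := by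
  have h := measurable_measure_prodMk_left (ν := μ) (g6t_closed (N := N) r).measurableSet
  exact h

/-- Tonelli for balls -/
theorem g6t_swap (μ ν : Measure (EN N)) [IsFiniteMeasure μ] [IsFiniteMeasure ν] (r : ℝ)
    {f : EN N → ℝ≥0∞} (hf : Measurable f) :
    ∫⁻ y, f y * μ (Metric.closedBall y r) ∂ν =
      ∫⁻ x, ∫⁻ y in Metric.closedBall x r, f y ∂ν ∂μ := by
  let g : EN N → EN N → ℝ≥0∞ := fun x y =>
    {p : EN N × EN N | dist p.2 p.1 ≤ r}.indicator (fun p => f p.1) (y, x)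
  have hg : Measurable (Function.uncurry g) := by
    have h1 : Measurable ({p : EN N × EN N | dist p.2 p.1 ≤ r}.indicator
        (fun p => f p.1)) := (hf.comp measurable_fst).indicator (g6t_closed r).measurableSet
    have h2 := h1.comp (measurable_swap (α := EN N) (β := EN N))
    exact h2
  have h1 : ∀ x : EN N, ∫⁻ y in Metric.closedBall x r, f y ∂ν = ∫⁻ y, g x y ∂ν := by
    intro x
    rw [← lintegral_indicator Metric.isClosed_closedBall.measurableSet]
    refine lintegral_congr fun y => ?_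
    by_cases h : dist x y ≤ r
    · have h2 : y ∈ Metric.closedBall x r := by
        rw [Metric.mem_closedBall, dist_comm]
        exact h
      have h3 : (y, x) ∈ {p : EN N × EN N | dist p.2 p.1 ≤ r} := h
      rw [Set.indicator_of_mem h2]
      simp only [g]
      rw [Set.indicator_of_mem h3]
    · have h2 : y ∉ Metric.closedBall x r := by
        rw [Metric.mem_closedBall, dist_comm]
        exact h
      have h3 : (y, x) ∉ {p : EN N × EN N | dist p.2 p.1 ≤ r} := h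
      rw [Set.indicator_of_notMem h2]
      simp only [g]
      rw [Set.indicator_of_notMem h3]
  have h2 : ∀ y : EN N, ∫⁻ x, g x y ∂μ = f y * μ (Metric.closedBall y r) := by
    intro y
    have h3 : (fun x => g x y) = (Metric.closedBall y r).indicator (fun _ => f y) := by
      funext x
      by_cases h : dist x y ≤ r
      · have h4 : x ∈ Metric.closedBall y r := h
        have h5 : (y, x) ∈ {p : EN N × EN N | dist p.2 p.1 ≤ r} := h
        simp only [g]
        rw [Set.indicator_of_mem h4, Set.indicator_of_mem h5]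
      · have h4 : x ∉ Metric.closedBall y r := h
        have h5 : (y, x) ∉ {p : EN N × EN N | dist p.2 p.1 ≤ r} := h
        simp only [g]
        rw [Set.indicator_of_notMem h4, Set.indicator_of_notMem h5]
    rw [h3, lintegral_indicator Metric.isClosed_closedBall.measurableSet, setLIntegral_const]
  calc ∫⁻ y, f y * μ (Metric.closedBall y r) ∂ν = ∫⁻ y, ∫⁻ x, g x y ∂μ ∂ν :=
        (lintegral_congr h2).symm
    _ = ∫⁻ x, ∫⁻ y, g x y ∂ν ∂μ := (lintegral_lintegral_swap hg.aemeasurable).symm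
    _ = ∫⁻ x, ∫⁻ y in Metric.closedBall x r, f y ∂ν ∂μ := (lintegral_congr h1).symm

/-- the kernel on the diagonal strip -/
theorem g6t_kap {R : ℝ} (hR : 0 < R) {x y : EN N} (h : dist x y ≤ R) :
    ENNReal.ofReal (1 / (4 * R ^ 2)) ≤ TCPair.kap R x y := by
  unfold TCPair.kap
  refine ENNReal.ofReal_le_ofReal ?_
  have h0 : 0 ≤ dist x y := dist_nonneg
  have h1 : dist x y ^ 2 ≤ R ^ 2 := pow_le_pow_left₀ h0 h 2
  have h2 : 0 < R ^ 2 := by positivity
  rw [div_le_div_iff₀ (by positivity) (by positivity)]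
  nlinarith [sq_nonneg (dist x y), mul_nonneg h2.le (sub_nonneg.mpr h1)]

namespace Setup

variable (S : Setup N)

/-- `closedBall y r` as a section of the closed set {(y, z) : dist z.1 y ≤ r} of a product -/
theorem g6_measurable_theta {m : Measure (EN N × EN N)} (hm : S.IsPos m) (δ : ℝ) :
    Measurable (S.theta m δ) := by
  have := hm.isFin_tr
  have h := g6t_measurable_ball (tr m) (S.C1 * δ)
  have e : S.theta m δ = fun y => δ⁻¹ ^ 4 * (tr m (Metric.closedBall y (S.C1 * δ))).toReal := by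
    funext y
    rw [tr_apply m Metric.isClosed_closedBall.measurableSet]
    rfl
  rw [e]
  exact (h.ennreal_toReal).const_mul (δ⁻¹ ^ 4)

theorem g6_theta_ofReal {m : Measure (EN N × EN N)} (hm : S.IsPos m) {δ : ℝ} (hδ : 0 < δ)
    (y : EN N) : ENNReal.ofReal (S.theta m δ y) =
      ENNReal.ofReal (δ⁻¹ ^ 4) * tr m (Metric.closedBall y (S.C1 * δ)) := by
  have := hm.fin
  rw [tr_apply m Metric.isClosed_closedBall.measurableSet]
  unfold theta
  rw [ENNReal.ofReal_mul (by positivity), ENNReal.ofReal_toReal (measure_ne_top m _)]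

theorem g6_theta_nonneg (m : Measure (EN N × EN N)) (δ : ℝ) (y : EN N) : 0 ≤ S.theta m δ y := by
  unfold theta
  have h : 0 ≤ δ⁻¹ ^ 4 := by
    have := sq_nonneg (δ⁻¹ ^ 2)
    rw [← pow_mul] at this
    exact this
  exact mul_nonneg h ENNReal.toReal_nonneg

theorem g6t_theta_le {m : Measure (EN N × EN N)} (hm : S.IsPos m) (δ : ℝ) (y : EN N) :
    S.theta m δ y ≤ δ⁻¹ ^ 4 * mass m := by
  have := hm.fin
  have h : 0 ≤ δ⁻¹ ^ 4 := by
    have := sq_nonneg (δ⁻¹ ^ 2)
    rw [← pow_mul] at this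
    exact this
  unfold theta mass
  refine mul_le_mul_of_nonneg_left ?_ h
  exact ENNReal.toReal_mono (measure_ne_top m _) (measure_mono (subset_univ _))

/-- bounded by δ^{-4} mass m, hence integrable -/
theorem g6_integrable_theta {m : Measure (EN N × EN N)} (hm : S.IsPos m) (δ : ℝ) :
    Integrable (S.theta m δ) S.nu := by
  refine Integrable.of_bound (S.g6_measurable_theta hm δ).aestronglyMeasurable
    (δ⁻¹ ^ 4 * mass m) (ae_of_all _ fun y => ?_)
  rw [Real.norm_eq_abs, abs_of_nonneg (S.g6_theta_nonneg m δ y)]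
  exact S.g6t_theta_le hm δ y

theorem g6_integrable_theta_mul {m m' : Measure (EN N × EN N)} (hm : S.IsPos m)
    (hm' : S.IsPos m') (δ : ℝ) :
    Integrable (fun y => S.theta m δ y * S.theta m' δ y) S.nu := by
  refine Integrable.of_bound
    ((S.g6_measurable_theta hm δ).mul (S.g6_measurable_theta hm' δ)).aestronglyMeasurable
    ((δ⁻¹ ^ 4 * mass m) * (δ⁻¹ ^ 4 * mass m')) (ae_of_all _ fun y => ?_)
  rw [Real.norm_eq_abs, abs_of_nonneg (mul_nonneg (S.g6_theta_nonneg m δ y)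
    (S.g6_theta_nonneg m' δ y))]
  exact mul_le_mul (S.g6t_theta_le hm δ y) (S.g6t_theta_le hm' δ y) (S.g6_theta_nonneg m' δ y)
    ((S.g6_theta_nonneg m δ y).trans (S.g6t_theta_le hm δ y))

theorem g6t_mass {m : Measure (EN N × EN N)} : mass m = (tr m univ).toReal := by
  rw [tr_apply m MeasurableSet.univ]
  rfl

theorem g6t_C1 : 0 < S.C1 := lt_of_lt_of_le zero_lt_one S.one_le_C1

/-- Tonelli and `vol_ball`: ∫ θ dν = δ^{-4} ∫ ν(B(x, C1 δ)) dμ(x) ≤ C1 C1^4 mass m -/
theorem g6_integral_theta_le {m : Measure (EN N × EN N)} (hm : S.IsPos m) {δ : ℝ} (hδ : 0 < δ) :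
    ∫ y, S.theta m δ y ∂S.nu ≤ S.C1 ^ 5 * mass m := by
  have hfin := hm.isFin_tr
  have hC := S.g6t_C1
  have h1 : ∫⁻ y, ENNReal.ofReal (S.theta m δ y) ∂S.nu ≤
      ENNReal.ofReal (S.C1 ^ 5) * tr m univ := by
    calc ∫⁻ y, ENNReal.ofReal (S.theta m δ y) ∂S.nu
        = ∫⁻ y, ENNReal.ofReal (δ⁻¹ ^ 4) * tr m (Metric.closedBall y (S.C1 * δ)) ∂S.nu :=
          lintegral_congr fun y => S.g6_theta_ofReal hm hδ y
      _ = ∫⁻ x, ∫⁻ y in Metric.closedBall x (S.C1 * δ), ENNReal.ofReal (δ⁻¹ ^ 4) ∂S.nu ∂(tr m) :=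
          g6t_swap (tr m) S.nu (S.C1 * δ) measurable_const
      _ ≤ ∫⁻ _x, ENNReal.ofReal (S.C1 ^ 5) ∂(tr m) := by
          refine lintegral_mono fun x => ?_
          rw [setLIntegral_const]
          have h2 := S.vol_ball x (S.C1 * δ) (mul_pos hC hδ)
          calc ENNReal.ofReal (δ⁻¹ ^ 4) * S.nu (Metric.closedBall x (S.C1 * δ))
              ≤ ENNReal.ofReal (δ⁻¹ ^ 4) * ENNReal.ofReal (S.C1 * (S.C1 * δ) ^ 4) := by gcongr
            _ = ENNReal.ofReal (S.C1 ^ 5) := by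
                rw [← ENNReal.ofReal_mul (by positivity)]
                congr 1
                field_simp
      _ = ENNReal.ofReal (S.C1 ^ 5) * tr m univ := lintegral_const _
  rw [integral_eq_lintegral_of_nonneg_ae (ae_of_all _ fun y => S.g6_theta_nonneg m δ y)
    (S.g6_measurable_theta hm δ).aestronglyMeasurable, g6t_mass]
  have h3 : (ENNReal.ofReal (S.C1 ^ 5) * tr m univ).toReal = S.C1 ^ 5 * (tr m univ).toReal := by
    rw [ENNReal.toReal_mul, ENNReal.toReal_ofReal (by positivity)]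
  rw [← h3]
  exact ENNReal.toReal_mono (ENNReal.mul_ne_top ENNReal.ofReal_ne_top (measure_ne_top _ _)) h1

/-- bounded density: θ ≤ c C1^2 δ^{-2}, so δ^2 ∫ θ^2 dν is bounded -/
theorem g6_dens_le {m : Measure (EN N × EN N)} (hm : S.IsPos m) (hd : Dens2 m) :
    ∃ C : ℝ, 0 ≤ C ∧ ∀ δ : ℝ, 0 < δ → δ ^ 2 * ∫ y, S.theta m δ y ^ 2 ∂S.nu ≤ C := by
  obtain ⟨c, hc, hb⟩ := hd
  have hC := S.g6t_C1
  have hmass : 0 ≤ mass m := ENNReal.toReal_nonneg
  refine ⟨c * S.C1 ^ 2 * (S.C1 ^ 5 * mass m), by positivity, fun δ hδ => ?_⟩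
  have := hm.fin
  have h1 : ∀ y, S.theta m δ y ≤ c * S.C1 ^ 2 * δ⁻¹ ^ 2 := by
    intro y
    have h2 := hb y (S.C1 * δ) (mul_pos hC hδ)
    rw [tr_apply m Metric.isClosed_closedBall.measurableSet] at h2
    have h3 : (m (Prod.fst ⁻¹' Metric.closedBall y (S.C1 * δ))).toReal ≤ c * (S.C1 * δ) ^ 2 := by
      refine (ENNReal.toReal_mono ENNReal.ofReal_ne_top h2).trans ?_
      rw [ENNReal.toReal_ofReal (by positivity)]
    calc S.theta m δ y = δ⁻¹ ^ 4 * (m (Prod.fst ⁻¹' Metric.closedBall y (S.C1 * δ))).toReal := rfl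
      _ ≤ δ⁻¹ ^ 4 * (c * (S.C1 * δ) ^ 2) := mul_le_mul_of_nonneg_left h3 (by positivity)
      _ = c * S.C1 ^ 2 * δ⁻¹ ^ 2 := by
          field_simp
  have h4 : ∫ y, S.theta m δ y ^ 2 ∂S.nu ≤ ∫ y, c * S.C1 ^ 2 * δ⁻¹ ^ 2 * S.theta m δ y ∂S.nu := by
    refine integral_mono ?_ ((S.g6_integrable_theta hm δ).const_mul _) fun y => ?_
    · have h5 := S.g6_integrable_theta_mul hm hm δ
      refine h5.congr (ae_of_all _ fun y => ?_)
      simp only
      ring
    · simp only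
      rw [sq]
      exact mul_le_mul_of_nonneg_right (h1 y) (S.g6_theta_nonneg m δ y)
  rw [integral_const_mul] at h4
  have h5 := S.g6_integral_theta_le hm hδ
  calc δ ^ 2 * ∫ y, S.theta m δ y ^ 2 ∂S.nu
      ≤ δ ^ 2 * (c * S.C1 ^ 2 * δ⁻¹ ^ 2 * ∫ y, S.theta m δ y ∂S.nu) :=
        mul_le_mul_of_nonneg_left h4 (by positivity)
    _ ≤ δ ^ 2 * (c * S.C1 ^ 2 * δ⁻¹ ^ 2 * (S.C1 ^ 5 * mass m)) :=
        mul_le_mul_of_nonneg_left (mul_le_mul_of_nonneg_left h5 (by positivity)) (by positivity)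
    _ = c * S.C1 ^ 2 * (S.C1 ^ 5 * mass m) := by
        field_simp

/-- the volume of the intersection of two balls, against the kernel -/
theorem g6t_inter {δ : ℝ} (hδ : 0 < δ) (x x' : EN N) :
    ENNReal.ofReal (δ⁻¹ ^ 6) * S.nu (Metric.closedBall x (S.C1 * δ) ∩
      Metric.closedBall x' (S.C1 * δ)) ≤
      ENNReal.ofReal (16 * S.C1 ^ 7) * TCPair.kap (2 * S.C1 * δ) x x' := by
  have hC := S.g6t_C1
  by_cases h : dist x x' ≤ 2 * S.C1 * δ
  · have h1 := g6t_kap (N := N) (R := 2 * S.C1 * δ) (by positivity) h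
    have h2 := S.vol_ball x (S.C1 * δ) (mul_pos hC hδ)
    calc ENNReal.ofReal (δ⁻¹ ^ 6) * S.nu (Metric.closedBall x (S.C1 * δ) ∩
          Metric.closedBall x' (S.C1 * δ))
        ≤ ENNReal.ofReal (δ⁻¹ ^ 6) * ENNReal.ofReal (S.C1 * (S.C1 * δ) ^ 4) := by
          gcongr
          exact (measure_mono inter_subset_left).trans h2
      _ = ENNReal.ofReal (16 * S.C1 ^ 7) * ENNReal.ofReal (1 / (4 * (2 * S.C1 * δ) ^ 2)) := by
          rw [← ENNReal.ofReal_mul (by positivity), ← ENNReal.ofReal_mul (by positivity)]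
          congr 1
          field_simp
          norm_num
      _ ≤ ENNReal.ofReal (16 * S.C1 ^ 7) * TCPair.kap (2 * S.C1 * δ) x x' := by gcongr
  · have h1 : Metric.closedBall x (S.C1 * δ) ∩ Metric.closedBall x' (S.C1 * δ) = ∅ := by
      rw [← Set.disjoint_iff_inter_eq_empty]
      refine Metric.closedBall_disjoint_closedBall ?_
      push Not at h
      linarith
    rw [h1, measure_empty, mul_zero]
    exact bot_le

/-- Tonelli and `vol_ball`: with μ = tr m, μ' = tr m',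
δ^2 ∫ θ_m θ_m' dν = δ^{-6} ∫∫ ν(B(x, C1 δ) ∩ B(x', C1 δ)) dμ dμ' ≤ C1^5 δ^{-2} (μ × μ') {|x - x'| ≤ 2 C1 δ},
and δ^{-2} 1_{|x - x'| ≤ 2 C1 δ} ≤ 16 C1^2 kap (2 C1 δ) x x'. -/
theorem g6_theta_pair_le {m m' : Measure (EN N × EN N)} (hm : S.IsPos m)
    (hm' : S.IsPos m') {δ : ℝ} (hδ : 0 < δ) :
    ENNReal.ofReal (δ ^ 2 * ∫ y, S.theta m δ y * S.theta m' δ y ∂S.nu) ≤
      ENNReal.ofReal (16 * S.C1 ^ 7) *
        ∫⁻ x, ∫⁻ y, TCPair.kap (2 * S.C1 * δ) x y ∂(tr m') ∂(tr m) := by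
  have hf := hm.isFin_tr
  have hf' := hm'.isFin_tr
  have hmb' := g6t_measurable_ball (tr m') (S.C1 * δ)
  have h1 : ENNReal.ofReal (∫ y, S.theta m δ y * S.theta m' δ y ∂S.nu) =
      ∫⁻ y, ENNReal.ofReal (S.theta m δ y * S.theta m' δ y) ∂S.nu :=
    ofReal_integral_eq_lintegral_ofReal (S.g6_integrable_theta_mul hm hm' δ)
      (ae_of_all _ fun y => mul_nonneg (S.g6_theta_nonneg m δ y) (S.g6_theta_nonneg m' δ y))
  have h2 : ∀ y, ENNReal.ofReal (S.theta m δ y * S.theta m' δ y) =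
      (ENNReal.ofReal (δ⁻¹ ^ 8) * tr m' (Metric.closedBall y (S.C1 * δ))) *
        tr m (Metric.closedBall y (S.C1 * δ)) := by
    intro y
    rw [ENNReal.ofReal_mul (S.g6_theta_nonneg m δ y), S.g6_theta_ofReal hm hδ,
      S.g6_theta_ofReal hm' hδ]
    have e : ENNReal.ofReal (δ⁻¹ ^ 8) = ENNReal.ofReal (δ⁻¹ ^ 4) * ENNReal.ofReal (δ⁻¹ ^ 4) := by
      rw [← ENNReal.ofReal_mul (by positivity)]
      congr 1
      ring
    rw [e]
    ring
  have h3 : ∀ x, ∫⁻ y in Metric.closedBall x (S.C1 * δ),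
      ENNReal.ofReal (δ⁻¹ ^ 8) * tr m' (Metric.closedBall y (S.C1 * δ)) ∂S.nu =
      ∫⁻ x', ENNReal.ofReal (δ⁻¹ ^ 8) * S.nu (Metric.closedBall x (S.C1 * δ) ∩
        Metric.closedBall x' (S.C1 * δ)) ∂(tr m') := by
    intro x
    have hms : MeasurableSet (Metric.closedBall x (S.C1 * δ)) :=
      Metric.isClosed_closedBall.measurableSet
    rw [g6t_swap (tr m') (S.nu.restrict (Metric.closedBall x (S.C1 * δ))) (S.C1 * δ)
      (f := fun _ => ENNReal.ofReal (δ⁻¹ ^ 8)) measurable_const]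
    refine lintegral_congr fun x' => ?_
    rw [setLIntegral_const, Measure.restrict_apply Metric.isClosed_closedBall.measurableSet,
      Set.inter_comm]
  calc ENNReal.ofReal (δ ^ 2 * ∫ y, S.theta m δ y * S.theta m' δ y ∂S.nu)
      = ENNReal.ofReal (δ ^ 2) * ∫⁻ y, (ENNReal.ofReal (δ⁻¹ ^ 8) *
          tr m' (Metric.closedBall y (S.C1 * δ))) * tr m (Metric.closedBall y (S.C1 * δ)) ∂S.nu := by
        rw [ENNReal.ofReal_mul (by positivity), h1, lintegral_congr h2]
    _ = ENNReal.ofReal (δ ^ 2) * ∫⁻ x, ∫⁻ y in Metric.closedBall x (S.C1 * δ),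
          ENNReal.ofReal (δ⁻¹ ^ 8) * tr m' (Metric.closedBall y (S.C1 * δ)) ∂S.nu ∂(tr m) := by
        rw [g6t_swap (tr m) S.nu (S.C1 * δ) (hmb'.const_mul _)]
    _ = ENNReal.ofReal (δ ^ 2) * ∫⁻ x, ∫⁻ x', ENNReal.ofReal (δ⁻¹ ^ 8) *
          S.nu (Metric.closedBall x (S.C1 * δ) ∩ Metric.closedBall x' (S.C1 * δ))
            ∂(tr m') ∂(tr m) := by
        rw [lintegral_congr h3]
    _ = ∫⁻ x, ∫⁻ x', ENNReal.ofReal (δ⁻¹ ^ 6) *
          S.nu (Metric.closedBall x (S.C1 * δ) ∩ Metric.closedBall x' (S.C1 * δ))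
            ∂(tr m') ∂(tr m) := by
        rw [← lintegral_const_mul' _ _ ENNReal.ofReal_ne_top]
        refine lintegral_congr fun x => ?_
        rw [← lintegral_const_mul' _ _ ENNReal.ofReal_ne_top]
        refine lintegral_congr fun x' => ?_
        rw [← mul_assoc, ← ENNReal.ofReal_mul (by positivity)]
        congr 2
        field_simp
    _ ≤ ∫⁻ x, ∫⁻ x', ENNReal.ofReal (16 * S.C1 ^ 7) * TCPair.kap (2 * S.C1 * δ) x x'
            ∂(tr m') ∂(tr m) := by
        refine lintegral_mono fun x => lintegral_mono fun x' => ?_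
        exact S.g6t_inter hδ x x'
    _ = ENNReal.ofReal (16 * S.C1 ^ 7) *
          ∫⁻ x, ∫⁻ y, TCPair.kap (2 * S.C1 * δ) x y ∂(tr m') ∂(tr m) := by
        rw [← lintegral_const_mul' _ _ ENNReal.ofReal_ne_top]
        refine lintegral_congr fun x => ?_
        rw [← lintegral_const_mul' _ _ ENNReal.ofReal_ne_top]

end Setup

end Pool.Agent.W_MP_d8b8b7_gt
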