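import Pool.Agent.W_MP_d8b8b7_gt.AlgPos

/-!
# (G6) the pointwise lower bound of the wedge product of two representatives
-/

namespace Pool.Agent.W_MP_d8b8b7_gt

open MeasureTheory Set Filter Topology
open scoped ContDiff ENNReal

theorem g6w_abs_Fc (a : C6) : |wedge a Fc| ≤ 2 * ‖a‖ := by
  have h := abs_wedge_le a Fc
  have h1 : ‖Fc‖ ≤ 2 := by
    have h2 := norm_Fc_sq
    nlinarith [norm_nonneg Fc]
  nlinarith [norm_nonneg a]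

theorem g6w_pr1_add (a : C6) (s : ℝ) : pr1 (a + s • Fc) = pr1 a + s • Fc := by
  have h := pr1_linear 1 s a Fc
  rw [one_smul, one_smul, pr1_Fc] at h
  exact h

theorem g6w_pr1_Fc (a : C6) : wedge (pr1 a) Fc = wedge a Fc := by
  rw [wedge_Fc, wedge_Fc, pr1_c0, pr1_c5]

/-- Put s = A δ² θ - c, t = A δ² θ'.  `Pos6.wedge_nonneg` for a + s F and b + t F gives
0 ≤ wedge (pr1 a) (pr1 b) + t wedge a F + s wedge F b + 2 s t
(pr1 F = F, wedge (pr1 a) F = wedge a F), and wedge (pr2 a) (pr2 b) ≥ -‖pr2 a‖ ‖pr2 b‖.  As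
|wedge a F| ≤ 2 ‖a‖, c t ≥ 0 and δ ≤ 1 the errors are at most 7 A² δ² θ θ'. -/
theorem g6_wedge_ge {a b : C6} {A θ θ' c δ : ℝ} (hA : 0 ≤ A) (hθ : 0 ≤ θ) (hθ' : 0 ≤ θ')
    (hc : 0 ≤ c) (hδ : 0 ≤ δ) (hδ1 : δ ≤ 1)
    (ha : ‖a‖ ≤ A * θ) (ha2 : ‖pr2 a‖ ≤ A * δ * θ) (hap : Pos6 (a + (A * δ ^ 2 * θ - c) • Fc))
    (hb : ‖b‖ ≤ A * θ') (hb2 : ‖pr2 b‖ ≤ A * δ * θ') (hbp : Pos6 (b + (A * δ ^ 2 * θ') • Fc)) :
    c * wedge Fc b - 7 * A ^ 2 * (δ ^ 2 * (θ * θ')) ≤ wedge a b := by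
  set s := A * δ ^ 2 * θ - c with hs
  set t := A * δ ^ 2 * θ' with ht
  have h1 := Pos6.wedge_nonneg hap hbp
  rw [g6w_pr1_add, g6w_pr1_add, wedge_add_left, wedge_add_right, wedge_add_right,
    wedge_smul_left, wedge_smul_left, wedge_smul_right, wedge_smul_right, wedge_Fc_Fc,
    g6w_pr1_Fc, wedge_comm Fc (pr1 b), g6w_pr1_Fc, wedge_comm b Fc] at h1
  have h2 := wedge_split a b
  have h3 : -(‖pr2 a‖ * ‖pr2 b‖) ≤ wedge (pr2 a) (pr2 b) :=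
    (abs_le.1 (abs_wedge_le (pr2 a) (pr2 b))).1
  have h4 : ‖pr2 a‖ * ‖pr2 b‖ ≤ (A * δ * θ) * (A * δ * θ') :=
    mul_le_mul ha2 hb2 (norm_nonneg _) (by positivity)
  have h5 : |wedge a Fc| ≤ 2 * (A * θ) := (g6w_abs_Fc a).trans (by linarith)
  have h6 : |wedge Fc b| ≤ 2 * (A * θ') := by
    rw [wedge_comm]
    exact (g6w_abs_Fc b).trans (by linarith)
  have ht0 : 0 ≤ t := by positivity
  have h7 : t * wedge a Fc ≤ t * (2 * (A * θ)) :=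
    mul_le_mul_of_nonneg_left ((le_abs_self _).trans h5) ht0
  have hs0 : 0 ≤ A * δ ^ 2 * θ := by positivity
  have h8 : (A * δ ^ 2 * θ) * wedge Fc b ≤ (A * δ ^ 2 * θ) * (2 * (A * θ')) :=
    mul_le_mul_of_nonneg_left ((le_abs_self _).trans h6) hs0
  have h9 : 0 ≤ c * t := mul_nonneg hc ht0
  have h10 : δ ^ 2 * (A ^ 2 * δ ^ 2 * θ * θ') ≤ 1 * (A ^ 2 * δ ^ 2 * θ * θ') :=
    mul_le_mul_of_nonneg_right (by nlinarith) (by positivity)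
  have e1 : t * (2 * (A * θ)) = 2 * (A ^ 2 * δ ^ 2 * θ * θ') := by
    rw [ht]
    ring
  have e2 : (A * δ ^ 2 * θ) * (2 * (A * θ')) = 2 * (A ^ 2 * δ ^ 2 * θ * θ') := by ring
  have e3 : (A * δ * θ) * (A * δ * θ') = A ^ 2 * δ ^ 2 * θ * θ' := by ring
  have e4 : s * (t * 2) = 2 * (δ ^ 2 * (A ^ 2 * δ ^ 2 * θ * θ')) - 2 * (c * t) := by
    rw [hs, ht]
    ring
  have e5 : s * wedge Fc b = (A * δ ^ 2 * θ) * wedge Fc b - c * wedge Fc b := by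
    rw [hs]
    ring
  have e6 : 7 * A ^ 2 * (δ ^ 2 * (θ * θ')) = 7 * (A ^ 2 * δ ^ 2 * θ * θ') := by ring
  rw [e6]
  linarith

end Pool.Agent.W_MP_d8b8b7_gt
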