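import Pool.Agent.W_MP_d8b8b7_gt.MeasC
import Pool.Agent.W_MP_d8b8b7_gt.MeasLow
import Pool.Agent.W_MP_d8b8b7_h77.G6Theta
import Pool.Agent.W_MP_d8b8b7_h77.G6Wedge
import Pool.Agent.W_MP_d8b8b7_h77.G6PmF

/-!
# (G6) the lower bound of the pairing of two representatives
-/

namespace Pool.Agent.W_MP_d8b8b7_gt

open MeasureTheory Set Filter Topology
open scoped ContDiff ENNReal

variable {N : ℕ}

namespace Setup

variable (S : Setup N)

omit S in
/-- a profile with q = 1 on the ball of radius 1/2: `ContDiffBump` at 0 with radii 1/2, 3/4 -/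
theorem g6_exists_q (N : ℕ) : ∃ q : EN N → ℝ, QProf 0 1 q ∧ (∀ s, ‖s‖ ≤ 1 / 2 → 1 ≤ q s) ∧
    0 < ∫ s, q s := by
  let f : ContDiffBump (0 : EN N) := ⟨1 / 2, 3 / 4, by norm_num, by norm_num⟩
  refine ⟨f, ⟨f.contDiff, ?_, fun s => f.nonneg, ?_⟩, ?_, ?_⟩
  · intro s hs
    apply f.zero_of_le_dist
    rw [dist_zero_right]
    exact le_trans (by norm_num [f]) hs
  · intro j hj s
    obtain rfl : j = 0 := Nat.le_zero.1 hj
    rw [norm_iteratedFDeriv_zero, Real.norm_eq_abs, abs_of_nonneg f.nonneg]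
    exact f.le_one
  · intro s hs
    refine (f.one_of_mem_closedBall ?_).ge
    rw [Metric.mem_closedBall, dist_zero_right]
    exact hs
  · exact f.integral_pos

/-- Two positive currents mP ≥ ε F and m, with representatives a, b.  Take C := the maximum of the
constants of `rep_bounds`, `rep_ge` (η = 1, c := c₀ ε), apply `g6_wedge_ge` pointwise (enlarging the
constant in Pos6 (a + s F) is allowed by `Pos6.add`, `pos6_Fc`) and integrate:
B a b ≥ c₀ ε B Fc b - 7 C² δ² ∫ θ θ', B Fc b = B b Fc = Pm m (Rb q δ Fc) ≥ (1/2) (∫ q) mass m by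
`g6_Pm_F`. -/
theorem g6_B_ge : ∃ c d₁ C : ℝ, 0 < c ∧ 0 < d₁ ∧ d₁ ≤ S.d0 / 2 ∧ 0 ≤ C ∧
    ∀ q : EN N → ℝ, QProf 0 1 q → (∀ s, ‖s‖ ≤ 1 / 2 → 1 ≤ q s) →
    ∀ ε : ℝ, 0 ≤ ε → ∀ mP m : Measure (EN N × EN N), S.IsPos mP → S.IsPos m →
      ENNReal.ofReal ε • S.mF ≤ mP →
    ∀ δ : ℝ, 0 < δ → δ ≤ d₁ → ∀ a b : EN N → C6, S.L2F a → S.L2F b →
      (∀ z, S.L2F z → S.Pm mP (S.Rb q δ z) = S.B a z) →
      (∀ z, S.L2F z → S.Pm m (S.Rb q δ z) = S.B b z) →
      c * ε * (∫ s, q s) * mass m - C * (δ ^ 2 * ∫ y, S.theta mP δ y * S.theta m δ y ∂S.nu) ≤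
        S.B a b := by
  obtain ⟨Cb, hCb, hbd⟩ := S.rep_bounds
  obtain ⟨c0, d1, Cg, hc0, hd1, hCg, hd1', hge⟩ := S.rep_ge
  obtain ⟨d2, hd2, hd2', hF⟩ := S.g6_Pm_F
  obtain ⟨A, hA⟩ : ∃ A, A = Cb + Cg := ⟨_, rfl⟩
  have hA0 : 0 ≤ A := by rw [hA]; positivity
  have hAb : Cb ≤ A := by rw [hA]; linarith
  have hAg : Cg ≤ A := by rw [hA]; linarith
  refine ⟨c0 / 2, min d1 d2, 7 * A ^ 2, by positivity, lt_min hd1 hd2,
    (min_le_left _ _).trans hd1', by positivity, ?_⟩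
  intro q hq hq1 ε hε mP m hmP hm hle δ hδ hδd a b ha hb hab hbb
  have hδ1 : δ ≤ d1 := hδd.trans (min_le_left _ _)
  have hδ2 : δ ≤ d2 := hδd.trans (min_le_right _ _)
  have hδ0 : δ ≤ S.d0 / 2 := hδ1.trans hd1'
  have hδ3 : δ ≤ 1 := by linarith [S.d0_le]
  have h1 := hbd δ hδ hδ0 mP hmP q hq a ha hab
  have h2 := hbd δ hδ hδ0 m hm q hq b hb hbb
  have h3 := hge δ hδ hδ1 1 zero_le_one q hq hq1 ε hε mP hmP hle a ha hab
  have key : ∀ᵐ x ∂S.nu, c0 * ε * wedge Fc (b x) -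
      7 * A ^ 2 * (δ ^ 2 * (S.theta mP δ x * S.theta m δ x)) ≤ wedge (a x) (b x) := by
    filter_upwards [h1, h2, h3] with x x1 x2 x3
    have t1 := S.theta_nonneg mP δ hδ x
    have t2 := S.theta_nonneg m δ hδ x
    have e1 : a x + (A * δ ^ 2 * S.theta mP δ x - c0 * ε) • Fc =
        (a x + (Cg * δ ^ 2 * S.theta mP δ x - c0 * 1 * ε) • Fc) +
          ((A - Cg) * δ ^ 2 * S.theta mP δ x) • Fc := by
      rw [add_assoc, ← add_smul]
      congr 2
      ring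
    have e2 : b x + (A * δ ^ 2 * S.theta m δ x) • Fc =
        (b x + (Cb * δ ^ 2 * S.theta m δ x) • Fc) +
          ((A - Cb) * δ ^ 2 * S.theta m δ x) • Fc := by
      rw [add_assoc, ← add_smul]
      congr 2
      ring
    refine g6_wedge_ge hA0 t1 t2 (mul_nonneg hc0.le hε) hδ.le hδ3 ?_ ?_ ?_ ?_ ?_ ?_
    · exact x1.1.trans (mul_le_mul_of_nonneg_right hAb t1)
    · exact x1.2.1.trans (mul_le_mul_of_nonneg_right (mul_le_mul_of_nonneg_right hAb hδ.le) t1)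
    · rw [e1]
      exact x3.add (pos6_Fc.smul (mul_nonneg (mul_nonneg (by linarith) (sq_nonneg _)) t1))
    · exact x2.1.trans (mul_le_mul_of_nonneg_right hAb t2)
    · exact x2.2.1.trans (mul_le_mul_of_nonneg_right (mul_le_mul_of_nonneg_right hAb hδ.le) t2)
    · rw [e2]
      exact x2.2.2.add (pos6_Fc.smul (mul_nonneg (mul_nonneg (by linarith) (sq_nonneg _)) t2))
  have i1 : Integrable (fun x => wedge Fc (b x)) S.nu := S.integrable_wedge S.g6_L2F_Fc hb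
  have i2 : Integrable (fun x => S.theta mP δ x * S.theta m δ x) S.nu :=
    S.g6_integrable_theta_mul hmP hm δ
  have i3 : Integrable (fun x => wedge (a x) (b x)) S.nu := S.integrable_wedge ha hb
  have h4 : c0 * ε * ∫ x, wedge Fc (b x) ∂S.nu -
      7 * A ^ 2 * (δ ^ 2 * ∫ x, S.theta mP δ x * S.theta m δ x ∂S.nu) ≤ S.B a b := by
    have h5 : ∫ x, (c0 * ε * wedge Fc (b x) -
      7 * A ^ 2 * (δ ^ 2 * (S.theta mP δ x * S.theta m δ x))) ∂S.nu ≤
        ∫ x, wedge (a x) (b x) ∂S.nu :=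
      integral_mono_ae ((i1.const_mul _).sub ((i2.const_mul _).const_mul _)) i3 key
    rw [integral_sub (i1.const_mul _) ((i2.const_mul _).const_mul _), integral_const_mul,
      integral_const_mul, integral_const_mul] at h5
    exact h5
  have h6 : ∫ x, wedge Fc (b x) ∂S.nu = S.Pm m (S.Rb q δ (fun _ => Fc)) := by
    rw [hbb _ S.g6_L2F_Fc, S.B_comm]
    rfl
  have h7 := hF δ hδ hδ2 q hq m hm
  rw [h6] at h4
  have h8 : c0 * ε * (1 / 2 * (∫ s, q s) * mass m) ≤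
      c0 * ε * S.Pm m (S.Rb q δ (fun _ => Fc)) :=
    mul_le_mul_of_nonneg_left h7 (mul_nonneg hc0.le hε)
  have e3 : c0 / 2 * ε * (∫ s, q s) * mass m = c0 * ε * (1 / 2 * (∫ s, q s) * mass m) := by ring
  rw [e3]
  linarith

end Setup

end Pool.Agent.W_MP_d8b8b7_gt
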