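import Pool.Agent.W_MP_d8b8b7_h77.G6Theta

/-!
# (G6) the diagonal terms of the pairings tend to zero
-/

namespace Pool.Agent.W_MP_d8b8b7_gt

open MeasureTheory Set Filter Topology
open scoped ContDiff ENNReal

variable {N : ℕ}

/-- a nonnegative function bounded by `K` times a function tending to zero after rescaling -/
theorem g6Pair_squeeze {f : ℝ → ℝ} {g : ℝ → ℝ≥0∞} {K c : ℝ} (hc : 0 < c)
    (h0 : ∀ δ : ℝ, 0 < δ → 0 ≤ f δ)
    (h : ∀ δ : ℝ, 0 < δ → ENNReal.ofReal (f δ) ≤ ENNReal.ofReal K * g (c * δ))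
    (hg : Tendsto g (𝓝[>] 0) (𝓝 0)) : Tendsto f (𝓝[>] 0) (𝓝 0) := by
  have h1 : Tendsto (fun δ : ℝ => c * δ) (𝓝[>] 0) (𝓝[>] 0) := by
    refine tendsto_nhdsWithin_of_tendsto_nhds_of_eventually_within _ ?_ ?_
    · have : Tendsto (fun δ : ℝ => c * δ) (𝓝 0) (𝓝 (c * 0)) :=
        (continuous_const.mul continuous_id).tendsto 0
      rw [mul_zero] at this
      exact this.mono_left nhdsWithin_le_nhds
    · filter_upwards [self_mem_nhdsWithin] with δ hδ
      have : (0 : ℝ) < δ := hδ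
      show (0 : ℝ) < c * δ
      positivity
  have h2 : Tendsto (fun δ : ℝ => ENNReal.ofReal K * g (c * δ)) (𝓝[>] 0) (𝓝 0) := by
    have h3 := ENNReal.Tendsto.const_mul (a := ENNReal.ofReal K) (hg.comp h1)
      (Or.inr ENNReal.ofReal_ne_top)
    rw [mul_zero] at h3
    exact h3
  have h4 : Tendsto (fun δ : ℝ => ENNReal.ofReal (f δ)) (𝓝[>] 0) (𝓝 0) := by
    refine tendsto_of_tendsto_of_tendsto_of_le_of_le' tendsto_const_nhds h2 ?_ ?_
    · exact Eventually.of_forall fun _ => zero_le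
    · filter_upwards [self_mem_nhdsWithin] with δ hδ
      exact h δ hδ
  have h5 := (ENNReal.tendsto_toReal ENNReal.zero_ne_top).comp h4
  rw [ENNReal.toReal_zero] at h5
  refine h5.congr' ?_
  filter_upwards [self_mem_nhdsWithin] with δ hδ
  exact ENNReal.toReal_ofReal (h0 δ hδ)

namespace Setup

variable (S : Setup N)

theorem g6Pair_nonneg (m m' : Measure (EN N × EN N)) (δ : ℝ) :
    0 ≤ δ ^ 2 * ∫ y, S.theta m δ y * S.theta m' δ y ∂S.nu :=
  mul_nonneg (sq_nonneg δ) (integral_nonneg fun y =>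
    mul_nonneg (S.g6_theta_nonneg m δ y) (S.g6_theta_nonneg m' δ y))

/-- case A: `TCPair.pair_tendsto_right` with μ = tr mP, τ = tr mT (use `kap_bound_of_ball`,
`tr_restrict_low`, and that δ ↦ 2 C1 δ tends to 0 from the right) -/
theorem g6_pair_A {mP mT : Measure (EN N × EN N)} (hP : S.IsPos mP) (hT : S.IsPos mT)
    (hd : Dens2 mT) :
    Tendsto (fun δ : ℝ => δ ^ 2 * ∫ y, S.theta (mP.restrict (low (tr mP))) δ y *
      S.theta mT δ y ∂S.nu) (𝓝[>] 0) (𝓝 0) := by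
  have hPf := hP.isFin_tr
  have hTf := hT.isFin_tr
  obtain ⟨c, hc, hb⟩ := hd
  have h1 := TCPair.pair_tendsto_right (μ := tr mP) (τ := tr mT) ENNReal.ofReal_ne_top
    (TCPair.kap_bound_of_ball hc hb)
  have hC := S.one_le_C1
  refine g6Pair_squeeze (c := 2 * S.C1) (K := 16 * S.C1 ^ 7) (by linarith)
    (fun δ _ => S.g6Pair_nonneg _ _ δ) (fun δ hδ => ?_) h1
  have h2 := S.g6_theta_pair_le (hP.restrict (low (tr mP))) hT hδ
  rw [tr_restrict_low] at h2
  exact h2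

/-- case B: `TCPair.pair_tendsto_left` with μ = tr mP, τ = tr mT -/
theorem g6_pair_B {mP mT : Measure (EN N × EN N)} (hP : S.IsPos mP) (hT : S.IsPos mT)
    (hd : Dens2 mP) :
    Tendsto (fun δ : ℝ => δ ^ 2 * ∫ y, S.theta mP δ y *
      S.theta (mT.restrict (low (tr mP))) δ y ∂S.nu) (𝓝[>] 0) (𝓝 0) := by
  have hPf := hP.isFin_tr
  have hTf := hT.isFin_tr
  obtain ⟨c, hc, hb⟩ := hd
  have h1 := TCPair.pair_tendsto_left (μ := tr mP) (τ := tr mT) ENNReal.ofReal_ne_top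
    (TCPair.kap_bound_of_ball hc hb)
  have hC := S.one_le_C1
  refine g6Pair_squeeze (c := 2 * S.C1) (K := 16 * S.C1 ^ 7) (by linarith)
    (fun δ _ => S.g6Pair_nonneg _ _ δ) (fun δ hδ => ?_) h1
  have h2 := S.g6_theta_pair_le (hT.restrict (low (tr mP))) hP hδ
  rw [tr_restrict_low] at h2
  have h3 : ∫ y, S.theta mP δ y * S.theta (mT.restrict (low (tr mP))) δ y ∂S.nu =
      ∫ y, S.theta (mT.restrict (low (tr mP))) δ y * S.theta mP δ y ∂S.nu := by
    congr 1
    funext y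
    ring
  rw [h3]
  exact h2

end Setup

end Pool.Agent.W_MP_d8b8b7_gt
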