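import Pool.Agent.W_MP_d8b8b7_gt.RbL2
import Pool.Agent.W_MP_d8b8b7_gt.Riesz
import Pool.Agent.W_MP_d8b8b7_h77.G6Def

/-!
# (G6) components of smooth forms; representatives of L2 functionals
-/

namespace Pool.Agent.W_MP_d8b8b7_gt

open MeasureTheory Set Filter Topology
open scoped ContDiff ENNReal

variable {N : ℕ}

namespace Setup

variable (S : Setup N)

/-- components of continuous fields are square integrable (bounded on X, measurable) -/
theorem g6_L2F_cp {β : EN N → Bil N} (hβ : Continuous β) : S.L2F (S.cp β) := by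
  exact S.L2F_cp hβ

/-- fields which agree on tangent vectors have the same components on X -/
theorem g6_cp_congr {β γ : EN N → Bil N} (h : S.TanEq β γ) {x : EN N} (hx : x ∈ S.X) :
    S.cp β x = S.cp γ x := by
  have key : ∀ i j : Fin 4, β x (S.fr i x) (S.fr j x) = γ x (S.fr i x) (S.fr j x) :=
    fun i j => h x hx _ _ (S.pt_Dfr hx i) (S.pt_Dfr hx j)
  apply pt_ext6
  · exact key 0 1
  · exact key 0 2
  · exact key 0 3
  · exact key 1 2
  · exact key 1 3
  · exact key 2 3

theorem g6_B_congr {β γ : EN N → Bil N} (h : S.TanEq β γ) (t : EN N → C6) :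
    S.B t (S.cp β) = S.B t (S.cp γ) := by
  unfold B
  refine integral_congr_ae ?_
  filter_upwards [S.ae_mem_X] with x hx
  rw [S.g6_cp_congr h hx]

/-- the representative of b ↦ B t (cp (Rb q δ b)): `riesz` with `Rb_add`, `Rb_smul`, `cp_add`,
`cp_smul`, `abs_B_le` and `nrm_cp_Rb_le` -/
theorem g6_exists_rep {t : EN N → C6} (ht : S.L2F t) {q : EN N → ℝ} (hq : QProf 0 1 q) {δ : ℝ}
    (hδ : 0 < δ) (hδ' : δ ≤ S.d0 / 2) :
    ∃ u : EN N → C6, S.L2F u ∧ ∀ b, S.L2F b → S.B t (S.cp (S.Rb q δ b)) = S.B u b := by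
  obtain ⟨C, hC, hb⟩ := S.nrm_cp_Rb_le
  have hq1 : ∀ s, |q s| ≤ 1 := by
    intro s
    have h := hq.bound 0 le_rfl s
    rwa [norm_iteratedFDeriv_zero, Real.norm_eq_abs] at h
  have hL : ∀ b, S.L2F b → S.L2F (S.cp (S.Rb q δ b)) := fun b h =>
    S.L2F_cp (S.isForm_Rb hq.smooth hδ h).smooth.continuous
  obtain ⟨u, hu, -, hu'⟩ := S.riesz (fun b => S.B t (S.cp (S.Rb q δ b))) (S.nrm t * C)
    (by
      intro b b' h h'
      have e : S.cp (S.Rb q δ (b + b')) = S.cp (S.Rb q δ b) + S.cp (S.Rb q δ b') := by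
        funext x
        rw [S.Rb_add hq.smooth hq.supp hδ h h', S.cp_add]
        rfl
      rw [e, S.B_comm t, S.B_add_left (hL b h) (hL b' h') ht, S.B_comm _ t, S.B_comm _ t])
    (by
      intro c b _
      have e : S.cp (S.Rb q δ (c • b)) = c • S.cp (S.Rb q δ b) := by
        funext x
        rw [S.Rb_smul, S.cp_smul]
        rfl
      rw [e, S.B_comm t, S.B_smul_left, S.B_comm _ t])
    (by
      intro b h
      refine (S.abs_B_le ht (hL b h)).trans ?_
      rw [mul_assoc]
      exact mul_le_mul_of_nonneg_left (hb δ hδ hδ' q hq.smooth.continuous hq1 hq.supp b h)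
        (S.nrm_nonneg t))
  exact ⟨u, hu, hu'⟩

end Setup

end Pool.Agent.W_MP_d8b8b7_gt
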