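import Pool.Agent.W_MP_d8b8b7_gt.SmoothR
import Pool.Agent.W_MP_d8b8b7_gt.MeasA
import Pool.Agent.W_MP_d8b8b7_h77.G6RepA

/-!
# (G6) representatives are weakly closed; pairing with om
-/

namespace Pool.Agent.W_MP_d8b8b7_gt

open MeasureTheory Set Filter Topology
open scoped ContDiff ENNReal

variable {N : ℕ}

namespace Setup

variable (S : Setup N)

theorem g6rb_isForm_om : IsForm S.om := ⟨S.smooth_om, S.om_alt⟩

theorem g6rb_closed_om : S.Closed S.om := fun x hx u v w hu hv hw =>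
  S.om_closed x hx u v w hu hv hw

theorem g6rb_cont_dOne {α : EN N → Cov N} (hα : IsOne α) : Continuous (dOne α) :=
  (smr_isForm_dOne hα).smooth.continuous

/-- the components of the right hand side of the homotopy formula -/
theorem g6rb_cp_hom (c : ℝ) (β γ : EN N → Bil N) :
    S.cp (fun x => c • β x + γ x) = c • S.cp β + S.cp γ := by
  funext x
  have h1 : (fun x => c • β x + γ x) = c • β + γ := rfl
  rw [h1, S.cp_add, S.cp_smul]
  rfl

theorem g6rb_B_add_right {a b b' : EN N → C6} (ha : S.L2F a) (hb : S.L2F b) (hb' : S.L2F b') :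
    S.B a (b + b') = S.B a b + S.B a b' := by
  rw [S.B_comm a (b + b'), S.B_add_left hb hb' ha, S.B_comm b a, S.B_comm b' a]

theorem g6rb_B_smul_right (c : ℝ) (a b : EN N → C6) : S.B a (c • b) = c * S.B a b := by
  rw [S.B_comm a (c • b), S.B_smul_left, S.B_comm b a]

/-- Stokes -/
theorem g6rb_stokes {β : EN N → Bil N} (hβ : IsForm β) (hc : S.Closed β) {κ : EN N → Cov N}
    (hκ : IsOne κ) : S.B (S.cp β) (S.cp (dOne κ)) = 0 := by
  rw [S.B_comm]
  exact S.stokes κ β hκ hβ hc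

theorem g6rb_abs_q {q : EN N → ℝ} (hq : QProf 0 1 q) (s : EN N) : |q s| ≤ 1 := by
  have h := hq.bound 0 le_rfl s
  rw [norm_iteratedFDeriv_zero] at h
  exact h

/-- the pairing of om with the regularisation of a closed form -/
theorem g6rb_B_om_form {q : EN N → ℝ} (hq : QProf 0 1 q) {δ : ℝ} (hδ : 0 < δ)
    (hδ' : δ ≤ S.d0 / 2) {β : EN N → Bil N} (hβ : IsForm β) (hc : S.Closed β) :
    S.B (S.cp S.om) (S.cp (S.Rb q δ (S.cp β))) = (∫ s, q s) * S.B (S.cp S.om) (S.cp β) := by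
  obtain ⟨κ, hκ, hT⟩ := S.homotopy hβ hc hq.smooth hq.supp hδ hδ'
  have hom : S.L2F (S.cp S.om) := S.L2F_cp S.smooth_om.continuous
  have hβL : S.L2F (S.cp β) := S.L2F_cp hβ.smooth.continuous
  have hκL : S.L2F (S.cp (dOne κ)) := S.L2F_cp (g6rb_cont_dOne hκ)
  rw [S.g6_B_congr hT, S.g6rb_cp_hom, S.g6rb_B_add_right hom (L2F.smul S hβL _) hκL,
    S.g6rb_B_smul_right, S.g6rb_stokes S.g6rb_isForm_om S.g6rb_closed_om hκ, add_zero]

/-- If m + t kills exact forms then a representative of its regularisation is weakly closed: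
B (cp dα) u = B u (cp dα) = Pm m (Rb q δ (cp dα)) + B t (cp (Rb q δ (cp dα))), and
Rb q δ (cp dα) is TanEq to d (Rone q δ α) (`Rb_dOne`, `isOne_Rone`, `Pm_congr`, `g6_B_congr`). -/
theorem g6_wclosed {m : Measure (EN N × EN N)} (hm : S.IsPos m) {t : EN N → C6} (ht : S.L2F t)
    (hk : ∀ α, IsOne α → S.Pm m (dOne α) + S.B t (S.cp (dOne α)) = 0)
    {q : EN N → ℝ} (hq : QProf 0 1 q) {δ : ℝ} (hδ : 0 < δ) (hδ' : δ ≤ S.d0 / 2)
    {u : EN N → C6} (hu : S.L2F u)
    (hrep : ∀ b, S.L2F b → S.Pm m (S.Rb q δ b) + S.B t (S.cp (S.Rb q δ b)) = S.B u b) :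
    S.WClosed u := by
  intro α hα
  have hL : S.L2F (S.cp (dOne α)) := S.L2F_cp (g6rb_cont_dOne hα)
  have hone := S.isOne_Rone hα hq.smooth hq.supp (δ := δ) hδ
  have hT := S.Rb_dOne hα hq.smooth hq.supp hδ hδ'
  rw [S.B_comm, ← hrep _ hL, S.Pm_congr hm hT, S.g6_B_congr hT]
  exact hk _ hone

/-- The pairing of om with a regularised weakly closed field.  For z = cp β, β closed: `homotopy`
gives Rb q δ (cp β) = (∫ q) β + dκ on tangent vectors, and B (cp om) (cp dκ) = 0 by `stokes`.  In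
general approximate z by cp β in L2 (hypothesis hdense) and use `nrm_cp_Rb_le`, `abs_B_le`. -/
theorem g6_B_om_Rb (hdense : ∀ z, S.L2F z → S.WClosed z → ∀ η : ℝ, 0 < η →
      ∃ β, IsForm β ∧ S.Closed β ∧ S.nrm (z - S.cp β) ≤ η)
    {q : EN N → ℝ} (hq : QProf 0 1 q) {δ : ℝ} (hδ : 0 < δ) (hδ' : δ ≤ S.d0 / 2)
    {z : EN N → C6} (hz : S.L2F z) (hzc : S.WClosed z) :
    S.B (S.cp S.om) (S.cp (S.Rb q δ z)) = (∫ s, q s) * S.B (S.cp S.om) z := by
  have hom : S.L2F (S.cp S.om) := S.L2F_cp S.smooth_om.continuous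
  obtain ⟨C, hC, hRb⟩ := S.nrm_cp_Rb_le
  have hqc : Continuous q := hq.smooth.continuous
  set I := ∫ s, q s with hI
  set n0 := S.nrm (S.cp S.om) with hn0
  have hn00 : 0 ≤ n0 := S.nrm_nonneg _
  have key : ∀ η : ℝ, 0 < η →
      |S.B (S.cp S.om) (S.cp (S.Rb q δ z)) - I * S.B (S.cp S.om) z| ≤ (n0 * C + |I| * n0) * η := by
    intro η hη
    obtain ⟨β, hβ, hc, hn⟩ := hdense z hz hzc η hη
    have hβL : S.L2F (S.cp β) := S.L2F_cp hβ.smooth.continuous
    have hw : S.L2F (z - S.cp β) := by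
      have h1 := L2F.add S hz (L2F.smul S hβL (-1))
      have e1 : z + (-1 : ℝ) • S.cp β = z - S.cp β := by
        rw [neg_one_smul, sub_eq_add_neg]
      rwa [e1] at h1
    have hze : z = (z - S.cp β) + S.cp β := by rw [sub_add_cancel]
    have hRbc : ∀ b : EN N → C6, S.L2F b → S.L2F (S.cp (S.Rb q δ b)) := fun b hb =>
      S.L2F_cp (S.isForm_Rb hq.smooth hδ hb).smooth.continuous
    have e2 : S.B (S.cp S.om) (S.cp (S.Rb q δ z)) =
        S.B (S.cp S.om) (S.cp (S.Rb q δ (z - S.cp β))) +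
          S.B (S.cp S.om) (S.cp (S.Rb q δ (S.cp β))) := by
      conv_lhs => rw [hze]
      rw [S.Rb_add hq.smooth hq.supp hδ hw hβL]
      have e3 : S.cp (S.Rb q δ (z - S.cp β) + S.Rb q δ (S.cp β)) =
          S.cp (S.Rb q δ (z - S.cp β)) + S.cp (S.Rb q δ (S.cp β)) := by
        funext x
        exact S.cp_add _ _ x
      rw [e3, S.g6rb_B_add_right hom (hRbc _ hw) (hRbc _ hβL)]
    have e4 : S.B (S.cp S.om) z = S.B (S.cp S.om) (z - S.cp β) + S.B (S.cp S.om) (S.cp β) := by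
      conv_lhs => rw [hze]
      rw [S.g6rb_B_add_right hom hw hβL]
    rw [e2, e4, S.g6rb_B_om_form hq hδ hδ' hβ hc]
    have e5 : S.B (S.cp S.om) (S.cp (S.Rb q δ (z - S.cp β))) + I * S.B (S.cp S.om) (S.cp β) -
        I * (S.B (S.cp S.om) (z - S.cp β) + S.B (S.cp S.om) (S.cp β)) =
        S.B (S.cp S.om) (S.cp (S.Rb q δ (z - S.cp β))) - I * S.B (S.cp S.om) (z - S.cp β) := by
      ring
    rw [e5]
    have b1 : |S.B (S.cp S.om) (S.cp (S.Rb q δ (z - S.cp β)))| ≤ n0 * (C * η) := by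
      refine (S.abs_B_le hom (hRbc _ hw)).trans ?_
      refine mul_le_mul_of_nonneg_left ?_ hn00
      refine (hRb δ hδ hδ' q hqc (g6rb_abs_q hq) hq.supp _ hw).trans ?_
      exact mul_le_mul_of_nonneg_left hn hC
    have b2 : |I * S.B (S.cp S.om) (z - S.cp β)| ≤ |I| * (n0 * η) := by
      rw [abs_mul]
      refine mul_le_mul_of_nonneg_left ?_ (abs_nonneg _)
      refine (S.abs_B_le hom hw).trans ?_
      exact mul_le_mul_of_nonneg_left hn hn00
    have b3 := abs_sub (S.B (S.cp S.om) (S.cp (S.Rb q δ (z - S.cp β))))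
      (I * S.B (S.cp S.om) (z - S.cp β))
    nlinarith
  have hM : 0 ≤ n0 * C + |I| * n0 := by positivity
  set M := n0 * C + |I| * n0 with hMdef
  set Δ := |S.B (S.cp S.om) (S.cp (S.Rb q δ z)) - I * S.B (S.cp S.om) z| with hΔ
  have hΔ0 : Δ ≤ 0 := by
    refine le_of_forall_pos_le_add fun ε hε => ?_
    have h1 := key (ε / (M + 1)) (by positivity)
    have h2 : M * (ε / (M + 1)) ≤ ε := by
      rw [mul_div_assoc', div_le_iff₀ (by positivity)]
      nlinarith
    linarith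
  have h3 : S.B (S.cp S.om) (S.cp (S.Rb q δ z)) - I * S.B (S.cp S.om) z = 0 :=
    abs_eq_zero.1 (le_antisymm hΔ0 (abs_nonneg _))
  linarith

/-- If m + t kills exact forms then its value on the regularisation of om is (∫ q) times its value
on om: `homotopy` for om. -/
theorem g6_val_om {m : Measure (EN N × EN N)} (hm : S.IsPos m) {t : EN N → C6} (ht : S.L2F t)
    (hk : ∀ α, IsOne α → S.Pm m (dOne α) + S.B t (S.cp (dOne α)) = 0)
    {q : EN N → ℝ} (hq : QProf 0 1 q) {δ : ℝ} (hδ : 0 < δ) (hδ' : δ ≤ S.d0 / 2) :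
    S.Pm m (S.Rb q δ (S.cp S.om)) + S.B t (S.cp (S.Rb q δ (S.cp S.om))) =
      (∫ s, q s) * (S.Pm m S.om + S.B t (S.cp S.om)) := by
  obtain ⟨κ, hκ, hT⟩ := S.homotopy S.g6rb_isForm_om S.g6rb_closed_om hq.smooth hq.supp hδ hδ'
  have hom : S.L2F (S.cp S.om) := S.L2F_cp S.smooth_om.continuous
  have hκL : S.L2F (S.cp (dOne κ)) := S.L2F_cp (g6rb_cont_dOne hκ)
  have hk0 := hk κ hκ
  have e1 : S.Pm m (fun x => (∫ s, q s) • S.om x + dOne κ x) =
      (∫ s, q s) * S.Pm m S.om + S.Pm m (dOne κ) := by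
    have h1 : (fun x => (∫ s, q s) • S.om x + dOne κ x) = (∫ s, q s) • S.om + dOne κ := rfl
    have hc : Continuous ((∫ s, q s) • S.om) :=
      (IsForm.smul (∫ s, q s) S.g6rb_isForm_om).smooth.continuous
    rw [h1, S.Pm_add hm hc (g6rb_cont_dOne hκ), S.Pm_smul]
  rw [S.Pm_congr hm hT, S.g6_B_congr hT, e1, S.g6rb_cp_hom,
    S.g6rb_B_add_right ht (L2F.smul S hom _) hκL, S.g6rb_B_smul_right]
  linarith

end Setup

end Pool.Agent.W_MP_d8b8b7_gt
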