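import Pool.Agent.W_MP_d8b8b7_gt.RepL2
import Pool.Agent.W_MP_d8b8b7_h77.G6AntiL1
import Pool.Agent.W_MP_d8b8b7_h77.G6Theta

/-!
# (G6) the T-term tends to zero
-/

namespace Pool.Agent.W_MP_d8b8b7_gt

open MeasureTheory Set Filter Topology
open scoped ContDiff ENNReal

variable {N : ℕ}

namespace Setup

variable (S : Setup N)

/-- truncation: an anti-invariant L2 field is an anti-invariant bounded field plus a small one.
t₁ = indicator {‖t‖ ≤ n} t, dominated convergence. -/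
theorem g6_trunc {t : EN N → C6} (ht : S.L2F t) (hta : ∀ x, pr1 (t x) = 0) {η : ℝ} (hη : 0 < η) :
    ∃ (n : ℝ) (t₁ : EN N → C6), S.L2F t₁ ∧ (∀ x, pr1 (t₁ x) = 0) ∧ (∀ x, ‖t₁ x‖ ≤ n) ∧
      S.nrm (t - t₁) ≤ η := by
  classical
  have hms : ∀ n : ℕ, MeasurableSet {x | ‖t x‖ ≤ (n : ℝ)} := fun n =>
    measurableSet_le ht.meas.norm measurable_const
  have h1 : Tendsto (fun n : ℕ => ∫ x, ‖(t - ({x | ‖t x‖ ≤ (n : ℝ)}).indicator t) x‖ ^ 2 ∂S.nu)
      atTop (𝓝 (∫ _x : EN N, (0 : ℝ) ∂S.nu)) := by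
    refine tendsto_integral_of_dominated_convergence (fun x => ‖t x‖ ^ 2) ?_
      (L2F.integrable_sq S ht) ?_ ?_
    · intro n
      exact ((ht.meas.sub (ht.meas.indicator (hms n))).norm.pow_const 2).aestronglyMeasurable
    · intro n
      refine Eventually.of_forall fun x => ?_
      rw [Real.norm_eq_abs, abs_of_nonneg (sq_nonneg _), Pi.sub_apply]
      by_cases hx : x ∈ {x | ‖t x‖ ≤ (n : ℝ)}
      · rw [Set.indicator_of_mem hx, sub_self, norm_zero, zero_pow two_ne_zero]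
        exact sq_nonneg _
      · rw [Set.indicator_of_notMem hx, sub_zero]
    · refine Eventually.of_forall fun x => ?_
      obtain ⟨n₀, hn₀⟩ := exists_nat_ge ‖t x‖
      refine tendsto_const_nhds.congr' ?_
      filter_upwards [eventually_ge_atTop n₀] with n hn
      have hx : x ∈ {x | ‖t x‖ ≤ (n : ℝ)} := hn₀.trans (Nat.cast_le.2 hn)
      rw [Pi.sub_apply, Set.indicator_of_mem hx, sub_self, norm_zero]
      norm_num
  rw [integral_zero] at h1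
  have h2 : ∀ᶠ n : ℕ in atTop,
      ∫ x, ‖(t - ({x | ‖t x‖ ≤ (n : ℝ)}).indicator t) x‖ ^ 2 ∂S.nu < η ^ 2 :=
    h1.eventually (gt_mem_nhds (by positivity))
  obtain ⟨n, hn⟩ := h2.exists
  refine ⟨n, ({x | ‖t x‖ ≤ (n : ℝ)}).indicator t, ⟨ht.meas.indicator (hms n),
    ht.memLp.indicator (hms n)⟩, fun x => ?_, fun x => ?_, ?_⟩
  · by_cases hx : x ∈ {x | ‖t x‖ ≤ (n : ℝ)}
    · rw [Set.indicator_of_mem hx]
      exact hta x
    · rw [Set.indicator_of_notMem hx]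
      exact map_zero l2_pr1L
  · by_cases hx : x ∈ {x | ‖t x‖ ≤ (n : ℝ)}
    · rw [Set.indicator_of_mem hx]
      exact hx
    · rw [Set.indicator_of_notMem hx, norm_zero]
      positivity
  · unfold nrm
    rw [← Real.sqrt_sq hη.le]
    exact Real.sqrt_le_sqrt hn.le

theorem g6_B_pr2 {t : EN N → C6} (hta : ∀ x, pr1 (t x) = 0) (b : EN N → C6) :
    S.B t b = S.B t (fun x => pr2 (b x)) := by
  unfold B
  refine integral_congr_ae (Eventually.of_forall fun x => ?_)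
  have h1 : pr2 (t x) = t x := by
    have h := pr1_add_pr2 (t x)
    rwa [hta x, zero_add] at h
  have h2 := wedge_pr2_left (t x) (b x)
  rw [h1] at h2
  exact h2

theorem g6_B_bdd {t w : EN N → C6} {n : ℝ} (ht : S.L2F t) (hn : ∀ x, ‖t x‖ ≤ n)
    (hw : S.L2F w) : |S.B t w| ≤ n * ∫ x, ‖w x‖ ∂S.nu := by
  unfold B
  have hi : Integrable (fun x => ‖w x‖) S.nu := (hw.memLp.integrable (by norm_num)).norm
  rw [← integral_const_mul]
  refine (abs_integral_le_integral_abs).trans ?_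
  refine integral_mono (S.integrable_wedge ht hw).abs (hi.const_mul n) fun x => ?_
  exact (abs_wedge_le _ _).trans (mul_le_mul_of_nonneg_right (hn x) (norm_nonneg _))

/-- Let t be anti-invariant and a_δ fields with ‖a_δ‖ ≤ C θ, ‖pr2 a_δ‖ ≤ C δ θ, where m has bounded
density.  Then B t (cp (Rb q δ a_δ)) = ∫ wedge t (pr2 (cp (Rb q δ a_δ))) tends to zero: by
`nrm_pr2_Rb_le` and `g6_dens_le` the L2 norm of w_δ = pr2 (cp (Rb q δ a_δ)) is at most
C' (δ ‖θ‖_2) ≤ C'' and by `g6_integral_pr2_le`, `g6_integral_theta_le` its L1 norm is at most C'' δ;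
split t = (t - t₁) + t₁ with `g6_trunc`: |B (t - t₁) w| ≤ η C'', |B t₁ w| ≤ n C'' δ
(`abs_wedge_le`; wedge t c = wedge t (pr2 c) if pr1 t = 0: `wedge_split`). -/
theorem g6_T_small {m : Measure (EN N × EN N)} (hm : S.IsPos m) (hd : Dens2 m) {t : EN N → C6}
    (ht : S.L2F t) (hta : ∀ x, pr1 (t x) = 0) {q : EN N → ℝ} (hq : QProf 0 1 q) {C : ℝ}
    (hC : 0 ≤ C) {a : ℝ → EN N → C6}
    (ha : ∀ᶠ δ in 𝓝[>] (0 : ℝ), S.L2F (a δ) ∧ ∀ᵐ x ∂S.nu, ‖a δ x‖ ≤ C * S.theta m δ x ∧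
      ‖pr2 (a δ x)‖ ≤ C * δ * S.theta m δ x) :
    Tendsto (fun δ => S.B t (S.cp (S.Rb q δ (a δ)))) (𝓝[>] 0) (𝓝 0) := by
  obtain ⟨C1, hC1, H1⟩ := S.g6_integral_pr2_le
  obtain ⟨C2, hC2, H2⟩ := S.nrm_pr2_Rb_le
  obtain ⟨C3, hC3, H3⟩ := S.g6_dens_le hm hd
  have hqc : Continuous q := hq.smooth.continuous
  have hq1 : ∀ s, |q s| ≤ 1 := fun s => by
    have h := hq.bound 0 le_rfl s
    rwa [norm_iteratedFDeriv_zero, Real.norm_eq_abs] at h
  have hM : 0 ≤ mass m := ENNReal.toReal_nonneg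
  have hCC : 0 ≤ S.C1 := zero_le_one.trans S.one_le_C1
  obtain ⟨K, hK0, hK⟩ : ∃ K : ℝ, 0 ≤ K ∧ K = C2 * (2 * C * Real.sqrt C3) :=
    ⟨_, by positivity, rfl⟩
  obtain ⟨L, hL0, hL⟩ : ∃ L : ℝ, 0 ≤ L ∧ L = C1 * (2 * C * (S.C1 ^ 5 * mass m)) :=
    ⟨_, by positivity, rfl⟩
  have key : ∀ᶠ δ in 𝓝[>] (0 : ℝ), 0 < δ ∧ S.L2F (fun x => pr2 (S.cp (S.Rb q δ (a δ)) x)) ∧
      S.nrm (fun x => pr2 (S.cp (S.Rb q δ (a δ)) x)) ≤ K ∧
      ∫ x, ‖pr2 (S.cp (S.Rb q δ (a δ)) x)‖ ∂S.nu ≤ L * δ := by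
    have hd0 : ∀ᶠ δ in 𝓝[>] (0 : ℝ), δ ≤ S.d0 / 2 := by
      have h : Iic (S.d0 / 2) ∈ 𝓝 (0 : ℝ) := Iic_mem_nhds (by linarith [S.d0_pos])
      exact mem_nhdsWithin_of_mem_nhds h
    filter_upwards [ha, hd0, self_mem_nhdsWithin] with δ haδ hδ' hδ0
    have hδ : 0 < δ := hδ0
    obtain ⟨haL, hab⟩ := haδ
    have hθ := S.nrm_theta m hm hδ
    have hθi := S.g6_integrable_theta hm δ
    refine ⟨hδ, L2F.pr2 S (S.L2F_cp (S.isForm_Rb hq.smooth hδ haL).smooth.continuous), ?_, ?_⟩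
    · have h1 := H2 δ hδ hδ' q hqc hq1 hq.supp (a δ) haL
      have h2 := S.repL2_nrm_le hm hδ haL hC (hab.mono fun x hx => hx.1)
      have h3 := S.repL2_nrm_le hm hδ (L2F.pr2 S haL) (mul_nonneg hC hδ.le)
        (hab.mono fun x hx => hx.2)
      have h4 : δ * Real.sqrt (∫ y, S.theta m δ y ^ 2 ∂S.nu) ≤ Real.sqrt C3 := by
        rw [hθ.2.2]
        exact Real.sqrt_le_sqrt (H3 δ hδ)
      refine h1.trans ?_
      rw [hK]
      refine mul_le_mul_of_nonneg_left ?_ hC2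
      calc S.nrm (fun x => pr2 (a δ x)) + δ * S.nrm (a δ)
          ≤ C * δ * Real.sqrt (∫ y, S.theta m δ y ^ 2 ∂S.nu) +
            δ * (C * Real.sqrt (∫ y, S.theta m δ y ^ 2 ∂S.nu)) :=
            add_le_add h3 (mul_le_mul_of_nonneg_left h2 hδ.le)
        _ = 2 * C * (δ * Real.sqrt (∫ y, S.theta m δ y ^ 2 ∂S.nu)) := by ring
        _ ≤ 2 * C * Real.sqrt C3 := mul_le_mul_of_nonneg_left h4 (by positivity)
    · have h1 := H1 δ hδ hδ' q hqc hq1 hq.supp (a δ) haL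
      refine h1.trans ?_
      rw [hL, mul_assoc]
      refine mul_le_mul_of_nonneg_left ?_ hC1
      have hi1 : Integrable (fun x => ‖a δ x‖) S.nu := (haL.memLp.integrable (by norm_num)).norm
      have hi2 : Integrable (fun x => ‖pr2 (a δ x)‖) S.nu :=
        ((L2F.pr2 S haL).memLp.integrable (by norm_num)).norm
      have h2 : ∫ x, (‖pr2 (a δ x)‖ + δ * ‖a δ x‖) ∂S.nu ≤
          ∫ x, 2 * C * δ * S.theta m δ x ∂S.nu := by
        refine integral_mono_ae (hi2.add (hi1.const_mul δ)) (hθi.const_mul _) ?_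
        filter_upwards [hab] with x hx
        have h3 : δ * ‖a δ x‖ ≤ δ * (C * S.theta m δ x) :=
          mul_le_mul_of_nonneg_left hx.1 hδ.le
        calc ‖pr2 (a δ x)‖ + δ * ‖a δ x‖ ≤ C * δ * S.theta m δ x + δ * (C * S.theta m δ x) :=
              add_le_add hx.2 h3
          _ = 2 * C * δ * S.theta m δ x := by ring
      refine h2.trans ?_
      rw [integral_const_mul]
      calc 2 * C * δ * ∫ y, S.theta m δ y ∂S.nu ≤ 2 * C * δ * (S.C1 ^ 5 * mass m) :=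
            mul_le_mul_of_nonneg_left (S.g6_integral_theta_le hm hδ) (by positivity)
        _ = 2 * C * (S.C1 ^ 5 * mass m) * δ := by ring
  rw [Metric.tendsto_nhds]
  intro ε hε
  obtain ⟨n, t₁, ht₁, hta₁, htn, htt⟩ := S.g6_trunc ht hta (η := ε / (2 * (K + 1)))
    (by positivity)
  have hn0 : 0 ≤ n := (norm_nonneg _).trans (htn 0)
  have hsm : ∀ᶠ δ in 𝓝[>] (0 : ℝ), n * (L * δ) < ε / 2 := by
    have hc : Tendsto (fun δ : ℝ => n * (L * δ)) (𝓝 0) (𝓝 (n * (L * 0))) :=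
      (Continuous.tendsto (by fun_prop) 0)
    rw [mul_zero, mul_zero] at hc
    exact (hc.mono_left nhdsWithin_le_nhds).eventually (gt_mem_nhds (by positivity))
  filter_upwards [key, hsm] with δ hδ hδ2
  obtain ⟨hδ0, hwL, hwK, hwI⟩ := hδ
  rw [Real.dist_eq, sub_zero, S.g6_B_pr2 hta]
  have hdec : S.B t (fun x => pr2 (S.cp (S.Rb q δ (a δ)) x)) =
      S.B (t - t₁) (fun x => pr2 (S.cp (S.Rb q δ (a δ)) x)) +
        S.B t₁ (fun x => pr2 (S.cp (S.Rb q δ (a δ)) x)) := by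
    have hs : S.L2F (t - t₁) := ⟨ht.meas.sub ht₁.meas, ht.memLp.sub ht₁.memLp⟩
    rw [← S.B_add_left hs ht₁ hwL, sub_add_cancel]
  have hs : S.L2F (t - t₁) := ⟨ht.meas.sub ht₁.meas, ht.memLp.sub ht₁.memLp⟩
  rw [hdec]
  have e1 : |S.B (t - t₁) (fun x => pr2 (S.cp (S.Rb q δ (a δ)) x))| ≤
      ε / (2 * (K + 1)) * K := by
    refine (S.abs_B_le hs hwL).trans ?_
    exact mul_le_mul htt hwK (S.nrm_nonneg _) (by positivity)
  have e2 : |S.B t₁ (fun x => pr2 (S.cp (S.Rb q δ (a δ)) x))| ≤ n * (L * δ) := by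
    refine (S.g6_B_bdd ht₁ htn hwL).trans ?_
    exact mul_le_mul_of_nonneg_left hwI hn0
  have e3 : ε / (2 * (K + 1)) * K ≤ ε / 2 := by
    rw [div_mul_eq_mul_div, div_le_div_iff₀ (by positivity) (by norm_num)]
    nlinarith
  calc |S.B (t - t₁) (fun x => pr2 (S.cp (S.Rb q δ (a δ)) x)) +
        S.B t₁ (fun x => pr2 (S.cp (S.Rb q δ (a δ)) x))| ≤ _ + _ := abs_add_le _ _
    _ ≤ ε / 2 + n * (L * δ) := add_le_add (e1.trans e3) e2
    _ < ε := by linarith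

end Setup

end Pool.Agent.W_MP_d8b8b7_gt
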