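import Pool.Agent.W_MP_d8b8b7_h77.G6AePot
import Pool.Agent.W_MP_d8b8b7_h77.G6TSmall
import Pool.Agent.W_MP_d8b8b7_h77.G6RepB
import Pool.Agent.W_MP_d8b8b7_h77.G6Pair
import Pool.Agent.W_MP_d8b8b7_h77.G6Low

/-!
# (G6) the two pairings, from the El Mir lemma, (Q1), the L2 representative of T and the densities
-/

namespace Pool.Agent.W_MP_d8b8b7_gt

open MeasureTheory Set Filter Topology
open scoped ContDiff ENNReal

variable {N : ℕ}

namespace Setup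

variable (S : Setup N)

/-- the El Mir lemma: a closed current m + t stays closed after m is cut by the polar set of mP -/
def ElMir : Prop := ∀ (mP m : Measure (EN N × EN N)) (t : EN N → C6), S.IsPos mP →
  (∀ α, IsOne α → S.Pm mP (dOne α) = 0) → S.IsPos m → S.L2F t → (∀ x, pr1 (t x) = 0) →
  (∀ α, IsOne α → S.Pm m (dOne α) + S.B t (S.cp (dOne α)) = 0) →
  ∀ α, IsOne α → S.Pm (m.restrict (low (tr mP))) (dOne α) + S.B t (S.cp (dOne α)) = 0

/-- (Q1) regularisations of weakly closed fields are closed -/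
def ClosedRb : Prop := ∃ d₁ : ℝ, 0 < d₁ ∧ d₁ ≤ S.d0 / 2 ∧ ∀ δ : ℝ, 0 < δ → δ ≤ d₁ →
  ∀ q : EN N → ℝ, ContDiff ℝ ∞ q → (∀ s, 1 ≤ ‖s‖ → q s = 0) →
  ∀ z : EN N → C6, S.L2F z → S.WClosed z → S.Closed (S.Rb q δ z)

/-- closed smooth forms are dense in the weakly closed fields -/
def DenseClosed : Prop := ∀ z, S.L2F z → S.WClosed z → ∀ η : ℝ, 0 < η →
  ∃ β, IsForm β ∧ S.Closed β ∧ S.nrm (z - S.cp β) ≤ η

theorem g6_L2F_zero : S.L2F (0 : EN N → C6) :=
  ⟨measurable_const, MemLp.zero⟩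

theorem g6_B_zero (b : EN N → C6) : S.B 0 b = 0 := by
  have h : ∀ c : C6, wedge (0 : C6) c = 0 := by
    intro x
    simp [wedge]
  simp [B, h]

/-- case A -/
theorem g6_contra_A (hE : S.ElMir) (hQ : S.ClosedRb) {mP mT : Measure (EN N × EN N)}
    {T : (EN N → Bil N) → ℝ} {ε : ℝ} (hε : 0 < ε) {k : ℕ} {K : ℝ} (hP : S.IsP ε mP)
    (hT : S.IsTc k K mT T) {t : EN N → C6} (ht : S.L2F t) (hta : ∀ x, pr1 (t x) = 0)
    (hrep : ∀ β, IsForm β → T β = S.B t (S.cp β)) (hdP : Dens2 mP) (hdT : Dens2 mT) : False := by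
  have := hP.fin
  have := hT.pos.fin
  have := hT.prob
  set mR := mP.restrict (low (tr mP)) with hmR
  have hRpos : S.IsPos mR := hP.toIsPos.restrict _
  have hRge : ENNReal.ofReal ε • S.mF ≤ mR := S.g6_cut_ge hP.toIsPos hP.ge
  have hRle : mR ≤ mP := Measure.restrict_le_self
  have hRd : Dens2 mR := hdP.mono hRle
  have hRk : ∀ α, IsOne α → S.Pm mR (dOne α) + S.B 0 (S.cp (dOne α)) = 0 :=
    hE mP mP 0 hP.toIsPos hP.closed hP.toIsPos S.g6_L2F_zero (fun x => by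
      show pr1 (0 : C6) = 0
      ext i; fin_cases i <;> simp [pr1]) (fun α hα => by
      rw [hP.closed α hα, S.g6_B_zero, add_zero])
  obtain ⟨q, hq, hq1, hqi⟩ := Setup.g6_exists_q N
  obtain ⟨c, d₁, C, hc, hd₁, hd₁', hC, hB⟩ := S.g6_B_ge
  obtain ⟨Cr, hCr, hrb⟩ := S.rep_bounds
  obtain ⟨d₂, hd₂, hd₂', hQ1⟩ := hQ
  have hex : ∀ δ : ℝ, ∃ a : EN N → C6, 0 < δ → δ ≤ S.d0 / 2 →
      S.L2F a ∧ ∀ b, S.L2F b → S.Pm mR (S.Rb q δ b) = S.B a b := by
    intro δ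
    by_cases h : 0 < δ ∧ δ ≤ S.d0 / 2
    · obtain ⟨a, ha⟩ := S.exists_rep hRpos h.1 h.2 hq
      exact ⟨a, fun _ _ => ha⟩
    · exact ⟨0, fun h1 h2 => (h ⟨h1, h2⟩).elim⟩
  choose a ha using hex
  have hd0 : 0 < S.d0 / 2 := by have := S.d0_pos; positivity
  have hsmall : Tendsto (fun δ => S.B t (S.cp (S.Rb q δ (a δ)))) (𝓝[>] 0) (𝓝 0) := by
    refine S.g6_T_small hRpos hRd ht hta hq (C := Cr) hCr ?_
    filter_upwards [Ioc_mem_nhdsGT hd0] with δ hδ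
    refine ⟨(ha δ hδ.1 hδ.2).1, ?_⟩
    filter_upwards [hrb δ hδ.1 hδ.2 mR hRpos q hq (a δ) (ha δ hδ.1 hδ.2).1
      (ha δ hδ.1 hδ.2).2] with x hx
    exact ⟨hx.1, hx.2.1⟩
  have hpair := S.g6_pair_A hP.toIsPos hT.pos hdT
  have hlim : Tendsto (fun δ : ℝ => C * (δ ^ 2 * ∫ y, S.theta mR δ y * S.theta mT δ y ∂S.nu) -
      S.B t (S.cp (S.Rb q δ (a δ)))) (𝓝[>] 0) (𝓝 (C * 0 - 0)) :=
    (hpair.const_mul C).sub hsmall
  have hev : ∀ᶠ δ in 𝓝[>] (0 : ℝ), c * ε * (∫ s, q s) * mass mT ≤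
      C * (δ ^ 2 * ∫ y, S.theta mR δ y * S.theta mT δ y ∂S.nu) -
        S.B t (S.cp (S.Rb q δ (a δ))) := by
    have hmin : 0 < min d₁ d₂ := lt_min hd₁ hd₂
    filter_upwards [Ioc_mem_nhdsGT hmin] with δ hδ
    have h1 : δ ≤ d₁ := hδ.2.trans (min_le_left _ _)
    have h2 : δ ≤ d₂ := hδ.2.trans (min_le_right _ _)
    have h3 : δ ≤ S.d0 / 2 := h1.trans hd₁'
    obtain ⟨haL, har⟩ := ha δ hδ.1 h3
    obtain ⟨b, hbL, hbr⟩ := S.exists_rep hT.pos hδ.1 h3 hq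
    have hw : S.WClosed (a δ) := by
      refine S.g6_wclosed hRpos S.g6_L2F_zero hRk hq hδ.1 h3 haL ?_
      intro z hz
      rw [S.g6_B_zero, add_zero, har z hz]
    have hcl := hQ1 δ hδ.1 h2 q hq.smooth hq.supp (a δ) haL hw
    have hform : IsForm (S.Rb q δ (a δ)) := S.isForm_Rb hq.smooth hδ.1 haL
    have h0 := hT.closed' _ hform hcl
    have h4 := hB q hq hq1 ε hε.le mR mT hRpos hT.pos hRge δ hδ.1 h1 (a δ) b haL hbL har hbr
    have h5 : S.Pm mT (S.Rb q δ (a δ)) = S.B b (a δ) := hbr (a δ) haL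
    rw [S.B_comm] at h5
    rw [hrep _ hform, h5] at h0
    linarith
  have hfin := ge_of_tendsto hlim hev
  have hmass : mass mT = 1 := by simp [mass]
  rw [hmass] at hfin
  have : 0 < c * ε * (∫ s, q s) * 1 := by positivity
  linarith

theorem g6_Pm_om (m : Measure (EN N × EN N)) (hm : S.IsPos m) : S.Pm m S.om = mass m := by
  have := hm.fin
  have h : ∀ᵐ z ∂m, S.ev S.om z = 1 := by
    have : ∀ᵐ z ∂m, z ∈ S.X1 := by
      rw [ae_iff]
      exact hm.supp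
    filter_upwards [this] with z hz
    exact hz.2.2
  unfold Pm
  rw [integral_congr_ae h]
  simp [mass, Measure.real]

/-- case B -/
theorem g6_contra_B (hE : S.ElMir) (hQ : S.ClosedRb) (hD : S.DenseClosed)
    {mP mT : Measure (EN N × EN N)}
    {T : (EN N → Bil N) → ℝ} {ε : ℝ} (hε : 0 < ε) {k : ℕ} {K : ℝ} (hP : S.IsPcls ε mP)
    (hT : S.IsT k K mT T) {t : EN N → C6} (ht : S.L2F t) (hta : ∀ x, pr1 (t x) = 0)
    (hrep : ∀ β, IsForm β → T β = S.B t (S.cp β)) (hdP : Dens2 mP) :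
    0 < S.Pm mT S.om + T S.om := by
  have := hP.fin
  have := hT.pos.fin
  have := hT.prob
  have := hP.toIsPos.isFin_tr
  set mC := mT.restrict (low (tr mP)) with hmC
  have hCpos : S.IsPos mC := hT.pos.restrict _
  have hCk : ∀ α, IsOne α → S.Pm mC (dOne α) + S.B t (S.cp (dOne α)) = 0 :=
    hE mP mT t hP.toIsPos hP.closed hT.pos ht hta (fun α hα => by
      rw [← hrep _ (dOne_isForm hα)]
      exact hT.closed α hα)
  have homf : IsForm S.om := ⟨S.smooth_om, S.om_alt⟩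
  have homL : S.L2F (S.cp S.om) := S.g6_L2F_cp S.smooth_om.continuous
  obtain ⟨q, hq, hq1, hqi⟩ := Setup.g6_exists_q N
  obtain ⟨c, d₁, C, hc, hd₁, hd₁', hC, hB⟩ := S.g6_B_ge
  obtain ⟨Cr, hCr, hrb⟩ := S.rep_bounds
  obtain ⟨d₂, hd₂, hd₂', hQ1⟩ := hQ
  have hex : ∀ δ : ℝ, ∃ p : EN N → C6, 0 < δ → δ ≤ S.d0 / 2 →
      S.L2F p ∧ ∀ b, S.L2F b → S.Pm mP (S.Rb q δ b) = S.B p b := by
    intro δ
    by_cases h : 0 < δ ∧ δ ≤ S.d0 / 2
    · obtain ⟨a, ha⟩ := S.exists_rep hP.toIsPos h.1 h.2 hq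
      exact ⟨a, fun _ _ => ha⟩
    · exact ⟨0, fun h1 h2 => (h ⟨h1, h2⟩).elim⟩
  choose p hp using hex
  have hd0 : 0 < S.d0 / 2 := by have := S.d0_pos; positivity
  have hsmall : Tendsto (fun δ => S.B t (S.cp (S.Rb q δ (p δ)))) (𝓝[>] 0) (𝓝 0) := by
    refine S.g6_T_small hP.toIsPos hdP ht hta hq (C := Cr) hCr ?_
    filter_upwards [Ioc_mem_nhdsGT hd0] with δ hδ
    refine ⟨(hp δ hδ.1 hδ.2).1, ?_⟩
    filter_upwards [hrb δ hδ.1 hδ.2 mP hP.toIsPos q hq (p δ) (hp δ hδ.1 hδ.2).1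
      (hp δ hδ.1 hδ.2).2] with x hx
    exact ⟨hx.1, hx.2.1⟩
  have hpair := S.g6_pair_B hP.toIsPos hT.pos hdP
  set Q := ∫ s, q s with hQdef
  set v := S.Pm mC S.om + S.B t (S.cp S.om) with hv
  have hlim : Tendsto (fun δ : ℝ => Q * (Q * v) +
      C * (δ ^ 2 * ∫ y, S.theta mP δ y * S.theta mC δ y ∂S.nu) -
      S.B t (S.cp (S.Rb q δ (p δ)))) (𝓝[>] 0) (𝓝 (Q * (Q * v) + C * 0 - 0)) :=
    ((hpair.const_mul C).const_add _).sub hsmall
  have hev : ∀ᶠ δ in 𝓝[>] (0 : ℝ), c * ε * Q * mass mC ≤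
      Q * (Q * v) + C * (δ ^ 2 * ∫ y, S.theta mP δ y * S.theta mC δ y ∂S.nu) -
        S.B t (S.cp (S.Rb q δ (p δ))) := by
    have hmin : 0 < min d₁ d₂ := lt_min hd₁ hd₂
    filter_upwards [Ioc_mem_nhdsGT hmin] with δ hδ
    have h1 : δ ≤ d₁ := hδ.2.trans (min_le_left _ _)
    have h2 : δ ≤ d₂ := hδ.2.trans (min_le_right _ _)
    have h3 : δ ≤ S.d0 / 2 := h1.trans hd₁'
    obtain ⟨hpL, hpr⟩ := hp δ hδ.1 h3
    obtain ⟨a, haL, har⟩ := S.exists_rep hCpos hδ.1 h3 hq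
    obtain ⟨u, huL, hur⟩ := S.g6_exists_rep ht hq hδ.1 h3
    have hrepu : ∀ z, S.L2F z → S.Pm mC (S.Rb q δ z) + S.B t (S.cp (S.Rb q δ z)) =
        S.B (a + u) z := by
      intro z hz
      rw [S.B_add_left haL huL hz, har z hz, hur z hz]
    have hau : S.L2F (a + u) := L2F.add S haL huL
    have hw : S.WClosed (a + u) := S.g6_wclosed hCpos ht hCk hq hδ.1 h3 hau hrepu
    have hcl := hQ1 δ hδ.1 h2 q hq.smooth hq.supp (a + u) hau hw
    have hform : IsForm (S.Rb q δ (a + u)) := S.isForm_Rb hq.smooth hδ.1 hau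
    have e1 : S.Pm mP (S.Rb q δ (a + u)) = S.B (S.cp S.om) (S.cp (S.Rb q δ (a + u))) :=
      hP.cls _ hform hcl
    have e2 := S.g6_B_om_Rb hD hq hδ.1 h3 hau hw
    have e3 : S.B (S.cp S.om) (a + u) = Q * v := by
      rw [S.B_comm, ← hrepu _ homL]
      exact S.g6_val_om hCpos ht hCk hq hδ.1 h3
    have e4 : S.Pm mP (S.Rb q δ (a + u)) = S.B (a + u) (p δ) := by
      rw [hpr _ hau, S.B_comm]
    have e5 : S.B (a + u) (p δ) = S.B (p δ) a + S.B t (S.cp (S.Rb q δ (p δ))) := by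
      rw [S.B_add_left haL huL hpL, hur _ hpL, S.B_comm a (p δ)]
    have h4 := hB q hq hq1 ε hε.le mP mC hP.toIsPos hCpos hP.ge δ hδ.1 h1 (p δ) a hpL haL hpr har
    have e6 : S.B (p δ) a + S.B t (S.cp (S.Rb q δ (p δ))) = Q * (Q * v) := by
      rw [← e5, ← e4, e1, e2, e3]
    linarith
  have hfin := ge_of_tendsto hlim hev
  have hmain : c * ε * mass mC ≤ Q * v := by
    have h6 : Q * (c * ε * mass mC) ≤ Q * (Q * v) := by linarith
    exact le_of_mul_le_mul_left h6 hqi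
  -- the split of the mass
  have hlow : MeasurableSet (low (tr mP)) := measurableSet_low _
  have hsplit : S.Pm mT S.om = S.Pm mC S.om + S.Pm (mT.restrict (low (tr mP))ᶜ) S.om := by
    have hint : Integrable (S.ev S.om) mT := S.integrable_ev hT.pos S.smooth_om.continuous
    exact (integral_add_compl hlow hint).symm
  have hN : S.Pm (mT.restrict (low (tr mP))ᶜ) S.om = mass (mT.restrict (low (tr mP))ᶜ) :=
    S.g6_Pm_om _ (hT.pos.restrict _)
  have hmass : mass mC + mass (mT.restrict (low (tr mP))ᶜ) = 1 := by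
    have h7 : mT (low (tr mP)) + mT (low (tr mP))ᶜ = 1 := by
      rw [measure_add_measure_compl hlow]; simp
    simp only [mass, hmC, Measure.restrict_apply_univ]
    rw [← ENNReal.toReal_add (measure_ne_top _ _) (measure_ne_top _ _), h7]
    simp
  have hCn : 0 ≤ mass mC := ENNReal.toReal_nonneg
  have hNn : 0 ≤ mass (mT.restrict (low (tr mP))ᶜ) := ENNReal.toReal_nonneg
  rw [hrep _ homf, hsplit, hN]
  have hgoal : S.Pm mC S.om + mass (mT.restrict (low (tr mP))ᶜ) + S.B t (S.cp S.om) =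
      v + mass (mT.restrict (low (tr mP))ᶜ) := by rw [hv]; ring
  rw [hgoal]
  rcases hCn.eq_or_lt with h8 | h8
  · -- all the mass is on the polar set
    have h9 : mass (mT.restrict (low (tr mP))ᶜ) = 1 := by linarith
    have h10 : 0 ≤ v := by
      rw [← h8] at hmain
      have : Q * 0 ≤ Q * v := by linarith
      exact le_of_mul_le_mul_left this hqi
    linarith
  · have h11 : 0 < v := by
      have : 0 < c * ε * mass mC := by positivity
      have h12 : Q * 0 < Q * v := by linarith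
      exact lt_of_mul_lt_mul_left h12 hqi.le
    linarith

end Setup

end Pool.Agent.W_MP_d8b8b7_gt
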